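import Pool.Agent.Helper36.REC.DNDe

/-!
# DND: density, if the generic element is diagonal
-/

set_option autoImplicit false

open scoped Classical
open NumberField Polynomial

namespace REC

namespace DNDx

/-! ## The span of the brackets -/

/-- the span of the brackets -/
def Br {K : Type} [Field K] {n : ℕ} (J : Matrix (Fin n) (Fin n) K) :
    Submodule K (Matrix (Fin n) (Fin n) K) :=
  Submodule.span K {Z | ∃ Y Y' : Matrix (Fin n) (Fin n) K, Y ∈ gl J ∧ Y' ∈ gl J ∧
    Z = Y * Y' - Y' * Y}

theorem br_mem {K : Type} [Field K] {n : ℕ} {J Y Y' : Matrix (Fin n) (Fin n) K}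
    (hY : Y ∈ gl J) (hY' : Y' ∈ gl J) : Y * Y' - Y' * Y ∈ Br J :=
  Submodule.subset_span ⟨Y, Y', hY, hY', rfl⟩

theorem sum_matrix {K : Type} [Field K] {n : ℕ} (Y : Matrix (Fin n) (Fin n) K) :
    Y = ∑ p : Fin n × Fin n, Matrix.single p.1 p.2 (Y p.1 p.2) := by
  ext a b
  rw [Matrix.sum_apply, Finset.sum_eq_single (a, b)]
  · rw [Matrix.single_apply_same]
  · intro p _ hp
    rw [Matrix.single_apply_of_ne]
    rintro ⟨h3, h4⟩
    exact hp (Prod.ext h3 h4)
  · intro hn
    exact absurd (Finset.mem_univ _) hn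

theorem sne {K : Type} [Field K] {n : ℕ} (a b c d : Fin n) (h : b ≠ c) (r r' : K) :
    Matrix.single a b r * Matrix.single c d r' = 0 := by
  apply Matrix.single_mul_single_of_ne
  exact h

theorem second_zero {K : Type} [Field K] {n : ℕ} (hn : 0 < n) (J X : Matrix (Fin n) (Fin n) K)
    (hJ : J = 0) (hX : X.trace = 0) : X ∈ Br J := by
  have hgl : ∀ Y, Y ∈ gl J := fun Y => ⟨0, by rw [hJ]; simp⟩
  have hoff : ∀ x y (r : K), x ≠ y → Matrix.single x y r ∈ Br J := by
    intro x y r hxy
    have h1 := br_mem (hgl (Matrix.single x x (1 : K))) (hgl (Matrix.single x y r))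
    rw [Matrix.single_mul_single_same, sne _ _ _ _ (Ne.symm hxy), sub_zero, one_mul] at h1
    exact h1
  have hdi : ∀ x y (r : K), Matrix.single x x r - Matrix.single y y r ∈ Br J := by
    intro x y r
    by_cases hxy : x = y
    · rw [hxy, sub_self]
      exact (Br J).zero_mem
    · have h1 := br_mem (hgl (Matrix.single x y (1 : K))) (hgl (Matrix.single y x r))
      rw [Matrix.single_mul_single_same, Matrix.single_mul_single_same, one_mul, mul_one] at h1
      exact h1
  have h2 : X = ∑ p : Fin n × Fin n, (Matrix.single p.1 p.2 (X p.1 p.2) -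
      if p.1 = p.2 then Matrix.single (⟨0, hn⟩ : Fin n) ⟨0, hn⟩ (X p.1 p.1) else 0) := by
    rw [Finset.sum_sub_distrib, ← sum_matrix, Fintype.sum_prod_type]
    simp only [Finset.sum_ite_eq, Finset.mem_univ, if_true]
    have h3 : ∑ x, Matrix.single (⟨0, hn⟩ : Fin n) (⟨0, hn⟩ : Fin n) (X x x) = 0 := by
      have h4 : ∑ x, Matrix.single (⟨0, hn⟩ : Fin n) (⟨0, hn⟩ : Fin n) (X x x) =
          Matrix.single (⟨0, hn⟩ : Fin n) (⟨0, hn⟩ : Fin n) (∑ x, X x x) := by
        have h5 := map_sum (Matrix.singleAddMonoidHom (α := K) (⟨0, hn⟩ : Fin n) (⟨0, hn⟩ : Fin n))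
          (fun x => X x x) Finset.univ
        exact h5.symm
      have h6 : ∑ x, X x x = 0 := hX
      rw [h4, h6, Matrix.single_zero]
    rw [h3, sub_zero]
  rw [h2]
  refine Submodule.sum_mem _ fun p _ => ?_
  by_cases hp : p.1 = p.2
  · rw [if_pos hp, ← hp]
    exact hdi _ _ _
  · rw [if_neg hp, sub_zero]
    exact hoff _ _ _ hp

/-! ## The case of a form -/

/-- the generators -/
def Fm {K : Type} [Field K] {n : ℕ} (J : Matrix (Fin n) (Fin n) K) (s : Fin n → Fin n)
    (a b : Fin n) : Matrix (Fin n) (Fin n) K :=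
  Matrix.single a b 1 - (J a (s a) * (J b (s b))⁻¹) • Matrix.single (s b) (s a) 1

theorem Jne {K : Type} [Field K] {n : ℕ} {J : Matrix (Fin n) (Fin n) K} {s : Fin n → Fin n}
    (hL : LocJ J s) (a : Fin n) : J a (s a) ≠ 0 := (hL.supp a (s a)).2 rfl

theorem Jsymm {K : Type} [Field K] {n : ℕ} {J : Matrix (Fin n) (Fin n) K} {s : Fin n → Fin n}
    (hL : LocJ J s) : ∃ ε : K, (ε = 1 ∨ ε = -1) ∧ (J.transpose = J → ε = 1 ∨ ε = 1) ∧
      ∀ a, J (s a) a = ε * J a (s a) := by
  by_cases h : J.transpose = J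
  · refine ⟨1, Or.inl rfl, fun _ => Or.inl rfl, fun a => ?_⟩
    have h1 := congrFun (congrFun h a) (s a)
    rw [Matrix.transpose_apply] at h1
    rw [h1, one_mul]
  · refine ⟨-1, Or.inr rfl, fun h' => absurd h' h, fun a => ?_⟩
    have h' := hL.sym.resolve_left h
    have h1 := congrFun (congrFun h' a) (s a)
    rw [Matrix.transpose_apply, Matrix.neg_apply] at h1
    rw [h1, neg_one_mul]

theorem Fm_mem {K : Type} [Field K] {n : ℕ} {J : Matrix (Fin n) (Fin n) K} {s : Fin n → Fin n}
    (hL : LocJ J s) (a b : Fin n) : Fm J s a b ∈ gl J := by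
  obtain ⟨ε, _, _, hε⟩ := Jsymm hL
  refine ⟨0, ?_⟩
  ext v w
  rw [form_entry hL, zero_smul, Matrix.zero_apply, Fm]
  simp only [Matrix.sub_apply, Matrix.smul_apply, smul_eq_mul]
  have e1 : (Matrix.single a b (1 : K)) (s w) v = if s w = a ∧ v = b then 1 else 0 := by
    rw [Matrix.single_apply]
    congr 1
    exact propext ⟨fun h => ⟨h.1.symm, h.2.symm⟩, fun h => ⟨h.1.symm, h.2.symm⟩⟩
  have e2 : (Matrix.single (s b) (s a) (1 : K)) (s v) w = if s w = a ∧ v = b then 1 else 0 := by
    rw [Matrix.single_apply]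
    congr 1
    refine propext ⟨fun h => ⟨by rw [← h.2, hL.inv], by rw [← hL.inv v, ← h.1, hL.inv]⟩,
      fun h => ⟨by rw [h.2], by rw [← h.1, hL.inv]⟩⟩
  have e3 : (Matrix.single (s b) (s a) (1 : K)) (s w) v = if w = b ∧ v = s a then 1 else 0 := by
    rw [Matrix.single_apply]
    congr 1
    refine propext ⟨fun h => ⟨by rw [← hL.inv w, ← h.1, hL.inv], h.2.symm⟩,
      fun h => ⟨by rw [h.1], h.2.symm⟩⟩
  have e4 : (Matrix.single a b (1 : K)) (s v) w = if w = b ∧ v = s a then 1 else 0 := by
    rw [Matrix.single_apply]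
    congr 1
    refine propext ⟨fun h => ⟨h.2.symm, by rw [h.1, hL.inv]⟩,
      fun h => ⟨by rw [h.2, hL.inv], h.1.symm⟩⟩
  rw [e1, e2, e3, e4]
  have hb : J b (s b) ≠ 0 := Jne hL b
  by_cases hP : s w = a ∧ v = b
  · by_cases hQ : w = b ∧ v = s a
    · rw [if_pos hP, if_pos hQ]
      obtain ⟨h1, h2⟩ := hP
      obtain ⟨h3, h4⟩ := hQ
      have h5 : J (s w) w = ε * J b (s b) := by rw [h3]; exact hε b
      have h6 : J v (s v) = J b (s b) := by rw [h2]
      have h7 : J a (s a) = J (s w) w := by rw [← h1, hL.inv]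
      have h9 : ε * ε = 1 := by
        have h10 := hε (s b)
        rw [hL.inv, hε b, ← mul_assoc] at h10
        have h11 : (ε * ε - 1) * J b (s b) = 0 := by
          rw [sub_mul, ← h10, one_mul, sub_self]
        rcases mul_eq_zero.1 h11 with h12 | h12
        · exact sub_eq_zero.1 h12
        · exact absurd h12 hb
      rw [h7, h5, h6]
      field_simp
      linear_combination (-(J b (s b))) * h9
    · rw [if_pos hP, if_neg hQ]
      obtain ⟨h1, h2⟩ := hP
      have h6 : J v (s v) = J b (s b) := by rw [h2]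
      have h7 : J (s w) w = J a (s a) := by rw [← h1, hL.inv]
      rw [h6, h7]
      field_simp
      ring
  · by_cases hQ : w = b ∧ v = s a
    · rw [if_neg hP, if_pos hQ]
      obtain ⟨h3, h4⟩ := hQ
      have h5 : J (s w) w = ε * J b (s b) := by rw [h3]; exact hε b
      have h6 : J v (s v) = ε * J a (s a) := by rw [h4, hL.inv]; exact hε a
      rw [h5, h6]
      field_simp
      ring
    · rw [if_neg hP, if_neg hQ]
      ring

/-- the formula for the elements of the Lie algebra -/
theorem two_smul_eq {K : Type} [Field K] {n : ℕ} {J : Matrix (Fin n) (Fin n) K}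
    {s : Fin n → Fin n} (hL : LocJ J s) (X : Matrix (Fin n) (Fin n) K)
    (hX : X.transpose * J + J * X = 0) :
    (2 : K) • X = ∑ p : Fin n × Fin n, X p.1 p.2 • Fm J s p.1 p.2 := by
  ext v w
  have h1 := congrFun (congrFun hX (s v)) w
  rw [form_entry hL, Matrix.zero_apply, hL.inv] at h1
  rw [Matrix.sum_apply]
  have h2 : ∀ p : Fin n × Fin n, (X p.1 p.2 • Fm J s p.1 p.2) v w =
      (Matrix.single p.1 p.2 (X p.1 p.2)) v w -
      (if p = (s w, s v) then X (s w) (s v) * (J (s w) w * (J (s v) v)⁻¹) else 0) := by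
    intro p
    rw [Fm, Matrix.smul_apply, Matrix.sub_apply, Matrix.smul_apply, smul_eq_mul, smul_eq_mul,
      mul_sub]
    congr 1
    · rw [Matrix.single_apply, Matrix.single_apply]
      split_ifs
      · rw [mul_one]
      · rw [mul_zero]
    · rw [Matrix.single_apply]
      by_cases hp : p = (s w, s v)
      · rw [if_pos hp, hp]
        simp only [hL.inv, and_self, if_true, mul_one]
      · rw [if_neg hp, if_neg, mul_zero, mul_zero]
        rintro ⟨h3, h4⟩
        apply hp
        apply Prod.ext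
        · rw [← h4, hL.inv]
        · rw [← h3, hL.inv]
  rw [Finset.sum_congr rfl fun p _ => h2 p, Finset.sum_sub_distrib, ← Matrix.sum_apply,
    ← sum_matrix, Finset.sum_ite_eq' , if_pos (Finset.mem_univ _), Matrix.smul_apply, smul_eq_mul]
  have h3 : J (s v) v ≠ 0 := by
    have := Jne hL (s v)
    rwa [hL.inv] at this
  have h4 : X (s w) (s v) * (J (s w) w * (J (s v) v)⁻¹) = - X v w := by
    rw [← mul_assoc, eq_neg_of_add_eq_zero_left h1]
    field_simp
  rw [h4]
  ring

theorem Fm_off {K : Type} [Field K] (h2 : (2 : K) ≠ 0) {n : ℕ} {J : Matrix (Fin n) (Fin n) K}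
    {s : Fin n → Fin n} (hL : LocJ J s) (a b : Fin n) (hab : a ≠ b) : Fm J s a b ∈ Br J := by
  have main : ∀ k : Fin n → K, (∀ x, k x + k (s x) = 0) → k a - k b ≠ 0 → Fm J s a b ∈ Br J := by
    intro k hk hne
    have h1 := br_mem (gl_diag hL k 0 hk) (Fm_mem hL a b)
    have h3 : Matrix.diagonal k * Fm J s a b - Fm J s a b * Matrix.diagonal k =
        (k a - k b) • Fm J s a b := by
      have hka : k (s a) = - k a := eq_neg_of_add_eq_zero_right (hk a)
      have hkb : k (s b) = - k b := eq_neg_of_add_eq_zero_right (hk b)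
      ext v w
      rw [Matrix.sub_apply, Matrix.diagonal_mul, Matrix.mul_diagonal, Matrix.smul_apply,
        smul_eq_mul, Fm, Matrix.sub_apply, Matrix.smul_apply, smul_eq_mul]
      by_cases hP : a = v ∧ b = w
      · by_cases hQ : s b = v ∧ s a = w
        · obtain ⟨h3, h4⟩ := hP
          rw [← h3, ← h4]
          ring
        · obtain ⟨h3, h4⟩ := hP
          rw [← h3, ← h4]
          ring
      · rw [Matrix.single_apply_of_ne _ _ _ _ _ hP]
        by_cases hQ : s b = v ∧ s a = w
        · obtain ⟨h3, h4⟩ := hQ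
          rw [← h3, ← h4, hka, hkb]
          ring
        · rw [Matrix.single_apply_of_ne _ _ _ _ _ hQ]
          ring
    rw [h3] at h1
    have h4 := (Br J).smul_mem (k a - k b)⁻¹ h1
    rwa [smul_smul, inv_mul_cancel₀ hne, one_smul] at h4
  have hk : ∀ c x : Fin n, ((if x = c then (1 : K) else 0) - (if x = s c then 1 else 0)) +
      ((if s x = c then (1 : K) else 0) - (if s x = s c then 1 else 0)) = 0 := by
    intro c x
    have e1 : (if s x = c then (1 : K) else 0) = if x = s c then 1 else 0 := by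
      congr 1
      exact propext ⟨fun h => by rw [← h, hL.inv], fun h => by rw [h, hL.inv]⟩
    have e2 : (if s x = s c then (1 : K) else 0) = if x = c then 1 else 0 := by
      congr 1
      exact propext ⟨fun h => by rw [← hL.inv x, h, hL.inv], fun h => by rw [h]⟩
    rw [e1, e2]
    ring
  by_cases ha : s a = a
  · -- then b is not fixed
    have hb : s b ≠ b := fun hb => hab (hL.fix a b ha hb)
    have hsb : a ≠ s b := by
      intro h
      apply hab
      rw [← ha, h, hL.inv]
    refine main (fun x => (if x = b then (1 : K) else 0) - (if x = s b then 1 else 0))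
      (fun x => hk b x) ?_
    simp only [if_neg hab, if_neg hsb, if_neg (Ne.symm hb), if_true]
    rw [sub_zero, sub_zero, zero_sub]
    exact neg_ne_zero.2 one_ne_zero
  · refine main (fun x => (if x = a then (1 : K) else 0) - (if x = s a then 1 else 0))
      (fun x => hk a x) ?_
    simp only [if_neg (Ne.symm hab), if_neg (Ne.symm ha), if_true]
    by_cases hba : b = s a
    · rw [if_pos hba]
      have : (1 : K) - 0 - (0 - 1) = 2 := by ring
      rw [this]
      exact h2
    · rw [if_neg hba, sub_zero, sub_zero, sub_zero]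
      exact one_ne_zero

theorem Fm_diag {K : Type} [Field K] {n : ℕ} {J : Matrix (Fin n) (Fin n) K}
    {s : Fin n → Fin n} (hL : LocJ J s) (a : Fin n) :
    Fm J s a a = Matrix.single a a 1 - Matrix.single (s a) (s a) 1 := by
  rw [Fm, mul_inv_cancel₀ (Jne hL a), one_smul]

theorem Fm_br {K : Type} [Field K] {n : ℕ} {J : Matrix (Fin n) (Fin n) K}
    {s : Fin n → Fin n} (hL : LocJ J s) (a z : Fin n) (hz : z ≠ s a) :
    Fm J s a z * Fm J s z a - Fm J s z a * Fm J s a z = Fm J s a a - Fm J s z z := by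
  have hza : s z ≠ a := fun h => hz (by rw [← h, hL.inv])
  rw [Fm_diag hL, Fm_diag hL, Fm, Fm]
  simp only [Matrix.sub_mul, Matrix.mul_sub, Matrix.smul_mul, Matrix.mul_smul,
    Matrix.single_mul_single_same, sne _ _ _ _ hz, sne _ _ _ _ (Ne.symm hz), sne _ _ _ _ hza,
    sne _ _ _ _ (Ne.symm hza), smul_smul, smul_zero, sub_zero, zero_sub, mul_one, smul_neg]
  have ha := Jne hL a
  have hz' := Jne hL z
  have h1 : J a (s a) * (J z (s z))⁻¹ * (J z (s z) * (J a (s a))⁻¹) = 1 := by
    field_simp
  have h2 : J z (s z) * (J a (s a))⁻¹ * (J a (s a) * (J z (s z))⁻¹) = 1 := by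
    field_simp
  rw [h1, h2, one_smul, one_smul]
  abel

theorem second_form {K : Type} [Field K] (h2 : (2 : K) ≠ 0) {n : ℕ}
    {J : Matrix (Fin n) (Fin n) K} {s : Fin n → Fin n} (hL : LocJ J s)
    (hn : J.transpose = J → n ≠ 2) (X : Matrix (Fin n) (Fin n) K)
    (hX : X.transpose * J + J * X = 0) : X ∈ Br J := by
  have hdiag : ∀ a, Fm J s a a ∈ Br J := by
    intro a
    by_cases ha : s a = a
    · rw [Fm_diag hL, ha, sub_self]
      exact (Br J).zero_mem
    obtain ⟨ε, hε1, _, hε⟩ := Jsymm hL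
    by_cases hs : J.transpose = J
    · -- symmetric: there is z outside {a, s a}
      have hz : ∃ z, z ≠ a ∧ z ≠ s a := by
        by_contra hne
        push Not at hne
        apply hn hs
        have h3 : (Finset.univ : Finset (Fin n)) = {a, s a} := by
          ext z
          simp only [Finset.mem_univ, Finset.mem_insert, Finset.mem_singleton, true_iff]
          by_cases hza : z = a
          · exact Or.inl hza
          · exact Or.inr (hne z hza)
        have h4 := congrArg Finset.card h3
        rw [Finset.card_univ, Fintype.card_fin, Finset.card_pair (Ne.symm ha)] at h4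
        exact h4
      obtain ⟨z, hza, hzs⟩ := hz
      have h3 := br_mem (Fm_mem hL a z) (Fm_mem hL z a)
      rw [Fm_br hL a z hzs] at h3
      have h4 := br_mem (Fm_mem hL a (s z)) (Fm_mem hL (s z) a)
      rw [Fm_br hL a (s z) (fun h => hza (by rw [← hL.inv z, h, hL.inv]))] at h4
      have h5 := (Br J).add_mem h3 h4
      have h6 : Fm J s a a - Fm J s z z + (Fm J s a a - Fm J s (s z) (s z)) =
          (2 : K) • Fm J s a a := by
        rw [Fm_diag hL a, Fm_diag hL z, Fm_diag hL (s z), hL.inv, two_smul]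
        abel
      rw [h6] at h5
      have h7 := (Br J).smul_mem (2 : K)⁻¹ h5
      rwa [smul_smul, inv_mul_cancel₀ h2, one_smul] at h7
    · -- alternating
      have hs' := hL.sym.resolve_left hs
      have hJa : J (s a) a = - J a (s a) := by
        have h1 := congrFun (congrFun hs' a) (s a)
        rwa [Matrix.transpose_apply, Matrix.neg_apply] at h1
      have hE : ∀ b, J (s b) b = - J b (s b) → Matrix.single b (s b) (1 : K) ∈ gl J := by
        intro b hb
        have h3 := Fm_mem hL b (s b)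
        have h4 : Fm J s b (s b) = (2 : K) • Matrix.single b (s b) (1 : K) := by
          rw [Fm, hL.inv, hb, inv_neg, mul_neg, mul_inv_cancel₀ (Jne hL b), neg_smul, one_smul,
            sub_neg_eq_add, two_smul]
        rw [h4] at h3
        have h5 := (gl J).smul_mem (2 : K)⁻¹ h3
        rwa [smul_smul, inv_mul_cancel₀ h2, one_smul] at h5
      have h3 := hE a hJa
      have h4 := hE (s a) (by rw [hL.inv, hJa, neg_neg])
      rw [hL.inv] at h4
      have h5 := br_mem h3 h4
      rw [Matrix.single_mul_single_same, Matrix.single_mul_single_same, one_mul,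
        ← Fm_diag hL] at h5
      exact h5
  have h3 : (2 : K) • X ∈ Br J := by
    rw [two_smul_eq hL X hX]
    refine Submodule.sum_mem _ fun p _ => (Br J).smul_mem _ ?_
    by_cases hp : p.1 = p.2
    · rw [hp]
      exact hdiag _
    · exact Fm_off h2 hL _ _ hp
  have h4 := (Br J).smul_mem (2 : K)⁻¹ h3
  rwa [smul_smul, inv_mul_cancel₀ h2, one_smul] at h4

end DNDx

open DNDx in
/-- DND: density, if the generic element is diagonal. -/
theorem DND (hTMB : ST_TMB) (hKGL : ST_KGL) (hKJJ : ST_KJJ) : ST_DND := by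
  intro G K _ _ t m J R q g₀ α c₁ c₁' c₂ c₂' D h2 hk hJ hF hP hR hN hD2 hD
  have hsum : ∀ X : MM m K, X = ∑ i, (Pi.single i (X i) : MM m K) := fun X =>
    (Finset.univ_sum_single X).symm
  constructor
  · intro W hW X hX u hu
    have hW' : ∀ g, Fop c₁ c₁' c₂ c₂' (fun i => R i g) (fun i => R i g⁻¹) ∈ stab W := hW
    have key : Lop c₁ c₁' c₂ c₂' X ∈ stab W := by
      rw [hsum X, ← Lmap_apply c₁ c₁' c₂ c₂' hTMB, map_sum]
      refine Submodule.sum_mem _ fun i _ => ?_
      exact (Hs_top c₁ c₁' c₂ c₂' hTMB hKGL hKJJ J R q g₀ α D h2 hk hJ hF hP hR hN hD2 hD W hW'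
        i).1 (X i) (hX i)
    exact key u hu
  · intro X hX
    rw [hsum X]
    refine Submodule.sum_mem _ fun i _ => ?_
    have hmap : Br (J i) ≤ (Submodule.span K {Z : MM m K | ∃ Y Y' : MM m K, InG J Y ∧
        InG J Y' ∧ Z = fun i => Y i * Y' i - Y' i * Y i}).comap
        (LinearMap.single K (fun i => Matrix (Fin (m i)) (Fin (m i)) K) i) := by
      rw [Br, Submodule.span_le]
      rintro Z ⟨Y, Y', hY, hY', rfl⟩
      refine Submodule.subset_span ⟨Pi.single i Y, Pi.single i Y', ?_, ?_, ?_⟩
      · intro i'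
        by_cases hi : i' = i
        · subst hi
          rw [Pi.single_eq_same]
          exact hY
        · rw [Pi.single_eq_of_ne hi]
          exact ⟨0, by simp⟩
      · intro i'
        by_cases hi : i' = i
        · subst hi
          rw [Pi.single_eq_same]
          exact hY'
        · rw [Pi.single_eq_of_ne hi]
          exact ⟨0, by simp⟩
      · rw [single_bracket]
        rfl
    refine hmap ?_
    obtain ⟨hm, hJi⟩ := hJ i
    by_cases hz : J i = 0
    · exact second_zero hm (J i) (X i) hz (hX i).1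
    · have hW' : ∀ g, Fop c₁ c₁' c₂ c₂' (fun i => R i g) (fun i => R i g⁻¹) ∈
          stab (⊤ : Submodule K (Matrix (Tix m c₂ c₂') (Tix m c₁ c₁') K)) :=
        fun g u _ => Submodule.mem_top
      obtain ⟨s, hL, hn⟩ := (Hs_top c₁ c₁' c₂ c₂' hTMB hKGL hKJJ J R q g₀ α D h2 hk hJ hF hP hR
        hN hD2 hD ⊤ hW' i).2 hz
      exact second_form h2 hL hn (X i) (hX i).2

end REC
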