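import Pool.Agent.Helper27.REC.StmtsT

/-!
# DND, part a: the generic element (local structure)
-/

set_option autoImplicit false

open scoped Classical
open NumberField Polynomial

namespace REC

namespace DNDx

/-! ## Interpolation -/

theorem aeval_mem {K V : Type*} [Field K] [AddCommGroup V] [Module K V] (f : Module.End K V)
    (W : Submodule K V) (hW : ∀ w ∈ W, f w ∈ W) (P : K[X]) : ∀ w ∈ W, (aeval f P) w ∈ W := by
  induction P using Polynomial.induction_on' with
  | add p q hp hq =>
    intro w hw
    rw [map_add, LinearMap.add_apply]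
    exact W.add_mem (hp w hw) (hq w hw)
  | monomial n a =>
    intro w hw
    rw [aeval_monomial, Module.End.mul_apply, Module.algebraMap_end_apply]
    refine W.smul_mem _ ?_
    clear a
    induction n with
    | zero => simpa using hw
    | succ n ih =>
      rw [pow_succ', Module.End.mul_apply]
      exact hW _ ih

theorem aeval_eig {K V : Type*} [Field K] [AddCommGroup V] [Module K V] (f : Module.End K V)
    (P : K[X]) (v : V) (l : K) (h : f v = l • v) : (aeval f P) v = P.eval l • v := by
  induction P using Polynomial.induction_on' with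
  | add p q hp hq =>
    rw [map_add, LinearMap.add_apply, hp, hq, eval_add, add_smul]
  | monomial n a =>
    rw [aeval_monomial, Module.End.mul_apply, Module.algebraMap_end_apply, eval_monomial,
      mul_smul]
    congr 1
    induction n with
    | zero => simp
    | succ n ih => rw [pow_succ', Module.End.mul_apply, ih, map_smul, h, smul_smul, pow_succ]

theorem lag {K V ι : Type*} [Field K] [AddCommGroup V] [Module K V] (f : Module.End K V)
    (W : Submodule K V) (hW : ∀ w ∈ W, f w ∈ W) (s : Finset ι) (v : ι → V) (lam : ι → K)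
    (hv : ∀ j ∈ s, f (v j) = lam j • v j) (φ : K → K) (h : ∑ j ∈ s, v j ∈ W) :
    ∑ j ∈ s, φ (lam j) • v j ∈ W := by
  have hP : ∀ j ∈ s, (Lagrange.interpolate (s.image lam) id φ).eval (lam j) = φ (lam j) := by
    intro j hj
    have := Lagrange.eval_interpolate_at_node (s := s.image lam) (v := id) φ
      (Set.injOn_id _) (Finset.mem_image_of_mem lam hj)
    simpa using this
  have h1 := aeval_mem f W hW (Lagrange.interpolate (s.image lam) id φ) _ h
  rw [map_sum] at h1
  have h2 : ∑ j ∈ s, φ (lam j) • v j =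
      ∑ j ∈ s, (aeval f (Lagrange.interpolate (s.image lam) id φ)) (v j) := by
    refine Finset.sum_congr rfl fun j hj => ?_
    rw [aeval_eig f _ _ _ (hv j hj), hP j hj]
  rw [h2]
  exact h1

/-! ## Relations at a single place -/

theorem noRel_single {K : Type} [Field K] {t : ℕ} {m : Fin t → ℕ} {z : Fin t → Prop}
    {q : Fin t → K} {D : ℕ} {α : ∀ i, Fin (m i) → K} (h : NoRel z q D α) (i : Fin t)
    (e : Fin (m i) → ℤ) (hb : ∀ x, |e x| ≤ D) (hs : ∑ x, e x = 0) (hp : ∏ x, α i x ^ e x = 1) :
    ∀ x, (z i → e x = 0) ∧ (¬ z i → ∀ y, α i x * α i y = q i → e x = e y) := by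
  have key := h (Pi.single i e) ?_ ?_ ?_ i
  · intro x
    have := key x
    rw [Pi.single_eq_same] at this
    exact this
  · intro i' x
    by_cases hi : i' = i
    · subst hi
      rw [Pi.single_eq_same]
      exact hb x
    · rw [Pi.single_eq_of_ne hi]
      simp
  · intro i'
    by_cases hi : i' = i
    · subst hi
      rw [Pi.single_eq_same]
      exact hs
    · rw [Pi.single_eq_of_ne hi]
      simp
  · rw [Finset.prod_eq_single i]
    · rw [Pi.single_eq_same]
      exact hp
    · intro i' _ hi
      rw [Pi.single_eq_of_ne hi]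
      simp
    · intro hi
      exact absurd (Finset.mem_univ i) hi

theorem prod_zpow_single {K : Type} [Field K] {n : ℕ} (α : Fin n → K) (a : Fin n) :
    ∏ z, α z ^ ((Pi.single a 1 : Fin n → ℤ) z) = α a := by
  rw [Finset.prod_eq_single a]
  · rw [Pi.single_eq_same, zpow_one]
  · intro z _ hz
    rw [Pi.single_eq_of_ne hz, zpow_zero]
  · intro h
    exact absurd (Finset.mem_univ a) h

theorem prod_zpow_sub {K : Type} [Field K] {n : ℕ} (α : Fin n → K) (hα : ∀ x, α x ≠ 0)
    (e e' : Fin n → ℤ) : ∏ z, α z ^ (e z - e' z) = (∏ z, α z ^ e z) / ∏ z, α z ^ e' z := by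
  rw [← Finset.prod_div_distrib]
  exact Finset.prod_congr rfl fun z _ => zpow_sub₀ (hα z) _ _

theorem prod_zpow_add {K : Type} [Field K] {n : ℕ} (α : Fin n → K) (hα : ∀ x, α x ≠ 0)
    (e e' : Fin n → ℤ) : ∏ z, α z ^ (e z + e' z) = (∏ z, α z ^ e z) * ∏ z, α z ^ e' z := by
  rw [← Finset.prod_mul_distrib]
  exact Finset.prod_congr rfl fun z _ => zpow_add₀ (hα z) _ _

theorem sum_single {n : ℕ} (a : Fin n) : ∑ z, (Pi.single a 1 : Fin n → ℤ) z = 1 := by
  rw [Finset.sum_eq_single a]
  · rw [Pi.single_eq_same]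
  · intro z _ hz
    rw [Pi.single_eq_of_ne hz]
  · intro h
    exact absurd (Finset.mem_univ a) h

theorem single_le {n : ℕ} (a z : Fin n) : 0 ≤ (Pi.single a 1 : Fin n → ℤ) z ∧
    (Pi.single a 1 : Fin n → ℤ) z ≤ 1 := by
  by_cases h : z = a
  · subst h
    rw [Pi.single_eq_same]
    omega
  · rw [Pi.single_eq_of_ne h]
    omega

/-- the relation `a / b = x / y` -/
theorem noRel_four {K : Type} [Field K] {t : ℕ} {m : Fin t → ℕ} {z : Fin t → Prop}
    {q : Fin t → K} {D : ℕ} {α : ∀ i, Fin (m i) → K} (h : NoRel z q D α) (hD : 2 ≤ D) (i : Fin t)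
    (hα : ∀ x, α i x ≠ 0) (a b x y : Fin (m i)) (hr : α i a * α i y = α i b * α i x)
    (e : Fin (m i) → ℤ)
    (he : ∀ w, e w = ((Pi.single a 1 : Fin (m i) → ℤ) w + (Pi.single y 1 : Fin (m i) → ℤ) w) -
      ((Pi.single b 1 : Fin (m i) → ℤ) w + (Pi.single x 1 : Fin (m i) → ℤ) w)) :
    ∀ x, (z i → e x = 0) ∧ (¬ z i → ∀ y, α i x * α i y = q i → e x = e y) := by
  refine noRel_single h i e ?_ ?_ ?_
  · intro w
    rw [he]
    have h1 := single_le a w
    have h2 := single_le y w
    have h3 := single_le b w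
    have h4 := single_le x w
    have h5 : (2 : ℤ) ≤ D := by exact_mod_cast hD
    rw [abs_le]
    constructor <;> omega
  · simp only [he]
    rw [Finset.sum_sub_distrib, Finset.sum_add_distrib, Finset.sum_add_distrib, sum_single,
      sum_single, sum_single, sum_single]
    rfl
  · simp only [he]
    rw [prod_zpow_sub (α i) hα (fun w => (Pi.single a 1 : Fin (m i) → ℤ) w +
        (Pi.single y 1 : Fin (m i) → ℤ) w) (fun w => (Pi.single b 1 : Fin (m i) → ℤ) w +
        (Pi.single x 1 : Fin (m i) → ℤ) w), prod_zpow_add (α i) hα, prod_zpow_add (α i) hα,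
      prod_zpow_single, prod_zpow_single, prod_zpow_single, prod_zpow_single, hr]
    exact div_self (mul_ne_zero (hα b) (hα x))

/-! ## The numbers `α i x` are distinct -/

theorem alpha_inj {K : Type} [Field K] {t : ℕ} {m : Fin t → ℕ} {z : Fin t → Prop}
    {q : Fin t → K} {D : ℕ} {α : ∀ i, Fin (m i) → K} (h : NoRel z q D α) (hD : 2 ≤ D) (i : Fin t)
    (hα : ∀ x, α i x ≠ 0) (hpart : ¬ z i → ∀ x, ∃ y, α i x * α i y = q i) :
    Function.Injective (α i) := by
  intro x y hxy
  by_contra hne
  -- the relation x / y = y / y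
  have key := noRel_four h hD i hα x y y y (by rw [hxy])
    (fun w => ((Pi.single x 1 : Fin (m i) → ℤ) w + (Pi.single y 1 : Fin (m i) → ℤ) w) -
      ((Pi.single y 1 : Fin (m i) → ℤ) w + (Pi.single y 1 : Fin (m i) → ℤ) w)) (fun w => rfl)
  have hx : ((Pi.single x 1 : Fin (m i) → ℤ) x + (Pi.single y 1 : Fin (m i) → ℤ) x) -
      ((Pi.single y 1 : Fin (m i) → ℤ) x + (Pi.single y 1 : Fin (m i) → ℤ) x) = 1 := by
    rw [Pi.single_eq_same, Pi.single_eq_of_ne hne]
    rfl
  have hy : ((Pi.single x 1 : Fin (m i) → ℤ) y + (Pi.single y 1 : Fin (m i) → ℤ) y) -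
      ((Pi.single y 1 : Fin (m i) → ℤ) y + (Pi.single y 1 : Fin (m i) → ℤ) y) = -1 := by
    rw [Pi.single_eq_same, Pi.single_eq_of_ne (Ne.symm hne)]
    rfl
  by_cases hz : z i
  · have := (key x).1 hz
    simp only [hx] at this
    exact one_ne_zero this
  · obtain ⟨w, hw⟩ := hpart hz x
    have h1 := (key x).2 hz w hw
    have h2 := (key y).2 hz w (by rw [← hxy]; exact hw)
    simp only [hx] at h1
    simp only [hy] at h2
    rw [← h2] at h1
    norm_num at h1

/-! ## The involution -/

/-- the data of a form which is antidiagonal for the involution `s` -/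
structure LocJ {K : Type} [Field K] {n : ℕ} (J : Matrix (Fin n) (Fin n) K)
    (s : Fin n → Fin n) : Prop where
  inv : ∀ x, s (s x) = x
  supp : ∀ x y, J x y ≠ 0 ↔ y = s x
  sym : J.transpose = J ∨ J.transpose = -J
  fix : ∀ x y, s x = x → s y = y → x = y

theorem exists_row {K : Type} [Field K] {n : ℕ} (J : Matrix (Fin n) (Fin n) K)
    (hJ : IsUnit J.det) (x : Fin n) : ∃ y, J x y ≠ 0 := by
  by_contra hne
  push Not at hne
  exact hJ.ne_zero (Matrix.det_eq_zero_of_row_eq_zero x hne)

theorem alpha_mul {K : Type} [Field K] {n : ℕ} {J : Matrix (Fin n) (Fin n) K} {α : Fin n → K}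
    {q : K} (h : (Matrix.diagonal α).transpose * J * Matrix.diagonal α = q • J) {x y : Fin n}
    (hxy : J x y ≠ 0) : α x * α y = q := by
  have := congrFun (congrFun h x) y
  rw [Matrix.diagonal_transpose, Matrix.mul_diagonal, Matrix.diagonal_mul, Matrix.smul_apply,
    smul_eq_mul] at this
  have h2 : (α x * α y) * J x y = q * J x y := by rw [← this]; ring
  exact mul_right_cancel₀ hxy h2

theorem exists_inv {K : Type} [Field K] {n : ℕ} {α : Fin n → K} {q : K}
    (hα : ∀ x, α x ≠ 0) (hinj : Function.Injective α) (hpart : ∀ x, ∃ y, α x * α y = q) :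
    ∃ s : Fin n → Fin n, (∀ x, s (s x) = x) ∧ ∀ x y, α x * α y = q ↔ y = s x := by
  choose s hs using hpart
  have huniq : ∀ x y, α x * α y = q → y = s x := by
    intro x y hxy
    apply hinj
    apply mul_left_cancel₀ (hα x)
    rw [hxy, hs x]
  refine ⟨s, fun x => ?_, fun x y => ⟨huniq x y, fun h => by rw [h]; exact hs x⟩⟩
  exact (huniq (s x) x (by rw [mul_comm]; exact hs x)).symm

/-- an involution with exactly two fixed points: the product -/
theorem prod_two_fixed {K : Type} [Field K] {n : ℕ} {α : Fin n → K} {q : K}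
    (hα : ∀ x, α x ≠ 0) (s : Fin n → Fin n) (hs : ∀ x, s (s x) = x)
    (hsq : ∀ x, α x * α (s x) = q) (x y : Fin n) (hxy : x ≠ y) (hx : s x = x) (hy : s y = y)
    (hfix : ∀ z, s z = z → z = x ∨ z = y) (hyx : α y = - α x) :
    ∃ r : ℕ, n = 2 * r ∧ ∏ z, α z = - q ^ r := by
  have hmem : ∀ z ∈ ((Finset.univ.erase x).erase y : Finset (Fin n)),
      s z ∈ ((Finset.univ.erase x).erase y : Finset (Fin n)) := by
    intro z hz
    rw [Finset.mem_erase, Finset.mem_erase] at hz ⊢
    refine ⟨fun h => hz.1 ?_, fun h => hz.2.1 ?_, Finset.mem_univ _⟩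
    · rw [← hs z, h, hy]
    · rw [← hs z, h, hx]
  have hnf : ∀ z ∈ ((Finset.univ.erase x).erase y : Finset (Fin n)), s z ≠ z := by
    intro z hz h
    rw [Finset.mem_erase, Finset.mem_erase] at hz
    rcases hfix z h with h | h
    · exact hz.2.1 h
    · exact hz.1 h
  have hcard : ((Finset.univ.erase x).erase y : Finset (Fin n)).card + 2 = n := by
    rw [Finset.card_erase_of_mem (Finset.mem_erase.2 ⟨Ne.symm hxy, Finset.mem_univ _⟩),
      Finset.card_erase_of_mem (Finset.mem_univ _), Finset.card_univ, Fintype.card_fin]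
    have : 2 ≤ n := by
      by_contra hlt
      have h1 := x.2
      have h2 := y.2
      apply hxy
      apply Fin.ext
      omega
    omega
  have h1 : ∏ z ∈ ((Finset.univ.erase x).erase y : Finset (Fin n)), (-1 : ℤ) = 1 :=
    Finset.prod_involution (fun z _ => s z) (fun z _ => by norm_num)
      (fun z hz _ => hnf z hz) (fun z hz => hmem z hz) (fun z _ => hs z)
  have h2 : ∏ z ∈ ((Finset.univ.erase x).erase y : Finset (Fin n)), (α z / α x) = 1 := by
    refine Finset.prod_involution (fun z _ => s z) (fun z _ => ?_)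
      (fun z hz _ => hnf z hz) (fun z hz => hmem z hz) (fun z _ => hs z)
    have hxx : α x * α x = q := by
      have := hsq x
      rwa [hx] at this
    rw [div_mul_div_comm, hsq z, hxx]
    refine div_self ?_
    rw [← hxx]
    exact mul_ne_zero (hα x) (hα x)
  rw [Finset.prod_const] at h1
  rw [Finset.prod_div_distrib, Finset.prod_const] at h2
  have h3 : ∏ z ∈ ((Finset.univ.erase x).erase y : Finset (Fin n)), α z =
      α x ^ ((Finset.univ.erase x).erase y : Finset (Fin n)).card := by
    rw [div_eq_one_iff_eq (pow_ne_zero _ (hα x))] at h2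
    exact h2
  have heven : Even ((Finset.univ.erase x).erase y : Finset (Fin n)).card := by
    by_contra hodd
    rw [Nat.not_even_iff_odd] at hodd
    rw [hodd.neg_one_pow] at h1
    norm_num at h1
  obtain ⟨r, hr⟩ := heven
  refine ⟨r + 1, by omega, ?_⟩
  rw [← Finset.mul_prod_erase Finset.univ α (Finset.mem_univ x),
    ← Finset.mul_prod_erase (Finset.univ.erase x) α
      (Finset.mem_erase.2 ⟨Ne.symm hxy, Finset.mem_univ _⟩), h3, hyx, hr]
  have hxx : α x * α x = q := by
    have := hsq x
    rwa [hx] at this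
  rw [← hxx]
  ring

/-- Step 0: the local structure at a place with a form. -/
theorem loc {K : Type} [Field K] (h2 : (2 : K) ≠ 0) {t : ℕ} {m : Fin t → ℕ} {z : Fin t → Prop}
    {q : Fin t → K} {D : ℕ} {α : ∀ i, Fin (m i) → K} (h : NoRel z q D α) (hD : 2 ≤ D)
    (i : Fin t) (hα : ∀ x, α i x ≠ 0)
    (J : Matrix (Fin (m i)) (Fin (m i)) K) (hJ : IsUnit J.det)
    (hsym : J.transpose = J ∨ J.transpose = -J)
    (hJα : (Matrix.diagonal (α i)).transpose * J * Matrix.diagonal (α i) = q i • J)
    (hdet : ∀ r : ℕ, m i = 2 * r → (Matrix.diagonal (α i)).det = q i ^ r) :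
    ∃ s : Fin (m i) → Fin (m i), LocJ J s ∧ ∀ x y, α i x * α i y = q i ↔ y = s x := by
  have hpart : ∀ x, ∃ y, α i x * α i y = q i := by
    intro x
    obtain ⟨y, hy⟩ := exists_row J hJ x
    exact ⟨y, alpha_mul hJα hy⟩
  have hinj := alpha_inj h hD i hα (fun _ => hpart)
  obtain ⟨s, hs, hsq⟩ := exists_inv hα hinj hpart
  refine ⟨s, ⟨hs, ?_, hsym, ?_⟩, hsq⟩
  · intro x y
    constructor
    · intro hxy
      exact (hsq x y).1 (alpha_mul hJα hxy)
    · intro hxy
      obtain ⟨w, hw⟩ := exists_row J hJ x
      have := (hsq x w).1 (alpha_mul hJα hw)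
      rw [hxy, ← this]
      exact hw
  · intro x y hx hy
    by_contra hne
    have hxx : α i x * α i x = q i := (hsq x x).2 hx.symm
    have hyy : α i y * α i y = q i := (hsq y y).2 hy.symm
    have hyx : α i y = - α i x := by
      have h3 : (α i y - α i x) * (α i y + α i x) = 0 := by
        have : (α i y - α i x) * (α i y + α i x) = α i y * α i y - α i x * α i x := by ring
        rw [this, hyy, hxx, sub_self]
      rcases mul_eq_zero.1 h3 with h4 | h4
      · exact absurd (hinj (sub_eq_zero.1 h4)).symm hne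
      · exact eq_neg_of_add_eq_zero_left h4
    have hfix : ∀ w, s w = w → w = x ∨ w = y := by
      intro w hw
      have hww : α i w * α i w = q i := (hsq w w).2 hw.symm
      have h3 : (α i w - α i x) * (α i w + α i x) = 0 := by
        have : (α i w - α i x) * (α i w + α i x) = α i w * α i w - α i x * α i x := by ring
        rw [this, hww, hxx, sub_self]
      rcases mul_eq_zero.1 h3 with h4 | h4
      · exact Or.inl (hinj (sub_eq_zero.1 h4))
      · right
        apply hinj
        rw [hyx]
        exact eq_neg_of_add_eq_zero_left h4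
    obtain ⟨r, hr, hprod⟩ := prod_two_fixed hα s hs (fun w => (hsq w (s w)).2 rfl) x y hne hx hy
      hfix hyx
    have h4 := hdet r hr
    rw [Matrix.det_diagonal, hprod] at h4
    have hq : q i ≠ 0 := by
      rw [← hxx]
      exact mul_ne_zero (hα x) (hα x)
    have h5 : (2 : K) * q i ^ r = 0 := by
      have : (2 : K) * q i ^ r = q i ^ r - (- q i ^ r) := by ring
      rw [this, h4, sub_self]
    rcases mul_eq_zero.1 h5 with h6 | h6
    · exact h2 h6
    · exact pow_ne_zero r hq h6

/-- Equal ratios at a place without a form. -/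
theorem ratio_zero {K : Type} [Field K] {t : ℕ} {m : Fin t → ℕ} {z : Fin t → Prop}
    {q : Fin t → K} {D : ℕ} {α : ∀ i, Fin (m i) → K} (h : NoRel z q D α) (hD : 2 ≤ D)
    (i : Fin t) (hz : z i) (hα : ∀ x, α i x ≠ 0) (a b x y : Fin (m i)) (hxy : x ≠ y)
    (hr : α i a * α i y = α i b * α i x) : a = x ∧ b = y := by
  have hinj := alpha_inj h hD i hα (fun hn => absurd hz hn)
  have key := noRel_four h hD i hα a b x y hr _ (fun w => rfl)
  have hab : a ≠ b := by
    intro hab
    apply hxy
    apply hinj
    rw [hab] at hr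
    exact (mul_left_cancel₀ (hα b) hr).symm
  have h1 := (key x).1 hz
  rw [Pi.single_eq_of_ne hxy, Pi.single_eq_same] at h1
  have hax : a = x := by
    by_contra hne
    rw [Pi.single_eq_of_ne (Ne.symm hne)] at h1
    have := single_le b x
    omega
  refine ⟨hax, ?_⟩
  apply hinj
  rw [hax] at hr
  have h2 : α i x * α i y = α i x * α i b := by rw [hr]; ring
  exact (mul_left_cancel₀ (hα x) h2).symm

/-- Equal ratios at a place with a form. -/
theorem ratio_form {K : Type} [Field K] {t : ℕ} {m : Fin t → ℕ} {z : Fin t → Prop}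
    {q : Fin t → K} {D : ℕ} {α : ∀ i, Fin (m i) → K} (h : NoRel z q D α) (hD : 2 ≤ D)
    (i : Fin t) (hz : ¬ z i) (hα : ∀ x, α i x ≠ 0) (hinj : Function.Injective (α i))
    (s : Fin (m i) → Fin (m i)) (hs : ∀ x, s (s x) = x)
    (hsq : ∀ x, α i x * α i (s x) = q i) (hfix : ∀ x y, s x = x → s y = y → x = y)
    (a b x y : Fin (m i)) (hxy : x ≠ y)
    (hr : α i a * α i y = α i b * α i x) : (a = x ∧ b = y) ∨ (a = s y ∧ b = s x) := by
  by_cases hax : a = x
  · left
    refine ⟨hax, ?_⟩
    apply hinj
    rw [hax] at hr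
    have h2 : α i x * α i y = α i x * α i b := by rw [hr]; ring
    exact (mul_left_cancel₀ (hα x) h2).symm
  by_cases hby : b = y
  · exfalso
    apply hax
    apply hinj
    rw [hby] at hr
    have h2 : α i a * α i y = α i x * α i y := by rw [hr]; ring
    exact mul_right_cancel₀ (hα y) h2
  right
  have hab : a ≠ b := by
    intro hab
    apply hxy
    apply hinj
    rw [hab] at hr
    exact (mul_left_cancel₀ (hα b) hr).symm
  have key := noRel_four h hD i hα a b x y hr _ (fun w => rfl)
  have key2 := fun w => (key w).2 hz (s w) (hsq w)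
  have pos : ∀ w, w = a ∨ w = y → s w = a ∨ s w = y := by
    intro w hw
    by_contra hne
    push Not at hne
    have h1 := key2 w
    rw [Pi.single_eq_of_ne hne.1, Pi.single_eq_of_ne hne.2] at h1
    have h2 := single_le b (s w)
    have h3 := single_le x (s w)
    rcases hw with hw | hw
    · rw [hw] at h1
      have h5 := single_le y a
      rw [hw] at h2 h3
      rw [Pi.single_eq_same (M := fun _ => ℤ) a, Pi.single_eq_of_ne hab, Pi.single_eq_of_ne hax]
        at h1
      omega
    · rw [hw] at h1
      have h5 := single_le a y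
      rw [hw] at h2 h3
      rw [Pi.single_eq_same (M := fun _ => ℤ) y, Pi.single_eq_of_ne (Ne.symm hby),
        Pi.single_eq_of_ne (Ne.symm hxy)] at h1
      omega
  have neg : ∀ w, w = b ∨ w = x → s w = b ∨ s w = x := by
    intro w hw
    by_contra hne
    push Not at hne
    have h1 := key2 w
    rw [Pi.single_eq_of_ne hne.1, Pi.single_eq_of_ne hne.2] at h1
    have h2 := single_le a (s w)
    have h3 := single_le y (s w)
    rcases hw with hw | hw
    · rw [hw] at h1
      have h5 := single_le x b
      rw [hw] at h2 h3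
      rw [Pi.single_eq_same (M := fun _ => ℤ) b, Pi.single_eq_of_ne (Ne.symm hab),
        Pi.single_eq_of_ne hby] at h1
      omega
    · rw [hw] at h1
      have h5 := single_le b x
      rw [hw] at h2 h3
      rw [Pi.single_eq_same (M := fun _ => ℤ) x, Pi.single_eq_of_ne (Ne.symm hax),
        Pi.single_eq_of_ne hxy] at h1
      omega
  constructor
  · rcases pos a (Or.inl rfl) with h1 | h1
    · rcases pos y (Or.inr rfl) with h2 | h2
      · exact h2.symm
      · rw [h2]
        exact hfix a y h1 h2
    · rw [← h1, hs]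
  · rcases neg x (Or.inr rfl) with h1 | h1
    · exact h1.symm
    · rcases neg b (Or.inl rfl) with h2 | h2
      · rw [h1]
        exact hfix b x h2 h1
      · rw [← h2, hs]

end DNDx

end REC
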