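import Pool.Agent.Helper36.REC.DNDa

/-!
# DND, part b: the operators and the weights
-/

set_option autoImplicit false

open scoped Classical
open NumberField Polynomial

namespace REC

namespace DNDx

/-! ## Weights -/

theorem prod_fiber {K : Type} [Field K] {n k : ℕ} (α : Fin n → K) (f : Fin k → Fin n) :
    ∏ j, α (f j) = ∏ x, α x ^ (Finset.univ.filter fun j => f j = x).card := by
  rw [← Finset.prod_fiberwise' (s := Finset.univ) (g := f) (f := α)]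
  exact Finset.prod_congr rfl fun x _ => Finset.prod_const _

theorem prod_wgt {K : Type} [Field K] {n k k' : ℕ} (α β : Fin n → K) (hαβ : ∀ x, α x * β x = 1)
    (f : Fin k → Fin n) (f' : Fin k' → Fin n) :
    (∏ j, α (f j)) * ∏ j, β (f' j) =
      ∏ x, α x ^ (((Finset.univ.filter fun j => f j = x).card : ℤ) -
        ((Finset.univ.filter fun j => f' j = x).card : ℤ)) := by
  rw [prod_fiber, prod_fiber, ← Finset.prod_mul_distrib]
  refine Finset.prod_congr rfl fun x _ => ?_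
  have hα : α x ≠ 0 := left_ne_zero_of_mul_eq_one (hαβ x)
  rw [zpow_sub₀ hα, zpow_natCast, zpow_natCast, eq_inv_of_mul_eq_one_right (hαβ x), inv_pow,
    div_eq_mul_inv]

theorem tmy_diag {K : Type} [Field K] (hTMB : ST_TMB) {t : ℕ} {m : Fin t → ℕ}
    (c c' : Fin t → ℕ) (α β : ∀ i, Fin (m i) → K) (hαβ : ∀ i x, α i x * β i x = 1) :
    tmy c c' (fun i => Matrix.diagonal (α i)) (fun i => Matrix.diagonal (β i)) =
      Matrix.diagonal fun p => ∏ i, ∏ x, α i x ^ wgt p i x := by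
  rw [(hTMB K t m c c').2.2.2.2.2.1 α β]
  congr 1
  funext p
  exact Finset.prod_congr rfl fun i _ => prod_wgt (α i) (β i) (hαβ i) _ _

/-! ## The operators -/

section

variable {K : Type} [Field K] {t : ℕ} {m : Fin t → ℕ} (c₁ c₁' c₂ c₂' : Fin t → ℕ)

/-- the action of the Lie algebra on matrices -/
noncomputable def Lop (X : MM m K) : Module.End K (Matrix (Tix m c₂ c₂') (Tix m c₁ c₁') K) where
  toFun u := dtm c₂ c₂' X * u - u * dtm c₁ c₁' X
  map_add' u v := by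
    rw [Matrix.mul_add, Matrix.add_mul]
    abel
  map_smul' r u := by
    rw [Matrix.mul_smul, Matrix.smul_mul, RingHom.id_apply, smul_sub]

/-- the action of the group on matrices -/
noncomputable def Fop (x y : MM m K) : Module.End K (Matrix (Tix m c₂ c₂') (Tix m c₁ c₁') K) where
  toFun u := tmy c₂ c₂' x y * u * tmy c₁ c₁' y x
  map_add' u v := by
    rw [Matrix.mul_add, Matrix.add_mul]
  map_smul' r u := by
    rw [Matrix.mul_smul, Matrix.smul_mul, RingHom.id_apply]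

theorem Lop_apply (X : MM m K) (u : Matrix (Tix m c₂ c₂') (Tix m c₁ c₁') K) :
    Lop c₁ c₁' c₂ c₂' X u = dtm c₂ c₂' X * u - u * dtm c₁ c₁' X := rfl

theorem Fop_apply (x y : MM m K) (u : Matrix (Tix m c₂ c₂') (Tix m c₁ c₁') K) :
    Fop c₁ c₁' c₂ c₂' x y u = tmy c₂ c₂' x y * u * tmy c₁ c₁' y x := rfl

theorem Lop_add (hTMB : ST_TMB) (X Y : MM m K) : Lop c₁ c₁' c₂ c₂' (X + Y) =
    Lop c₁ c₁' c₂ c₂' X + Lop c₁ c₁' c₂ c₂' Y := by
  apply LinearMap.ext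
  intro u
  rw [LinearMap.add_apply, Lop_apply, Lop_apply, Lop_apply]
  have h1 := (hTMB K t m c₁ c₁').2.2.2.2.2.2.1 X Y
  have h2 := (hTMB K t m c₂ c₂').2.2.2.2.2.2.1 X Y
  have h3 : (X + Y : MM m K) = fun i => X i + Y i := rfl
  rw [h3, h1, h2, Matrix.add_mul, Matrix.mul_add]
  abel

theorem Lop_smul (hTMB : ST_TMB) (r : K) (X : MM m K) : Lop c₁ c₁' c₂ c₂' (r • X) =
    r • Lop c₁ c₁' c₂ c₂' X := by
  apply LinearMap.ext
  intro u
  rw [LinearMap.smul_apply, Lop_apply, Lop_apply]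
  have h1 := (hTMB K t m c₁ c₁').2.2.2.2.2.2.2.1 r X
  have h2 := (hTMB K t m c₂ c₂').2.2.2.2.2.2.2.1 r X
  have h3 : (r • X : MM m K) = fun i => r • X i := rfl
  rw [h3, h1, h2, Matrix.smul_mul, Matrix.mul_smul, smul_sub]

/-- the action as a linear map -/
noncomputable def Lmap (hTMB : ST_TMB) :
    MM m K →ₗ[K] Module.End K (Matrix (Tix m c₂ c₂') (Tix m c₁ c₁') K) where
  toFun := Lop c₁ c₁' c₂ c₂'
  map_add' := Lop_add c₁ c₁' c₂ c₂' hTMB
  map_smul' := Lop_smul c₁ c₁' c₂ c₂' hTMB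

theorem Lmap_apply (hTMB : ST_TMB) (X : MM m K) : Lmap c₁ c₁' c₂ c₂' hTMB X =
    Lop c₁ c₁' c₂ c₂' X := rfl

theorem Lop_bracket (hTMB : ST_TMB) (X Y : MM m K) :
    Lop c₁ c₁' c₂ c₂' (fun i => X i * Y i - Y i * X i) =
      Lop c₁ c₁' c₂ c₂' X * Lop c₁ c₁' c₂ c₂' Y - Lop c₁ c₁' c₂ c₂' Y * Lop c₁ c₁' c₂ c₂' X := by
  apply LinearMap.ext
  intro u
  have h1 := (hTMB K t m c₁ c₁').2.2.2.2.2.2.2.2.1 X Y
  have h2 := (hTMB K t m c₂ c₂').2.2.2.2.2.2.2.2.1 X Y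
  rw [LinearMap.sub_apply, Module.End.mul_apply, Module.End.mul_apply, Lop_apply, Lop_apply,
    Lop_apply, Lop_apply, Lop_apply, h1, h2]
  simp only [Matrix.sub_mul, Matrix.mul_sub, Matrix.mul_assoc]
  abel

theorem Fop_Lop (hTMB : ST_TMB) (x y X : MM m K) (hxy : ∀ i, x i * y i = 1)
    (hyx : ∀ i, y i * x i = 1) :
    Fop c₁ c₁' c₂ c₂' x y * Lop c₁ c₁' c₂ c₂' X =
      Lop c₁ c₁' c₂ c₂' (fun i => x i * X i * y i) * Fop c₁ c₁' c₂ c₂' x y := by
  apply LinearMap.ext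
  intro u
  have h2 := (hTMB K t m c₂ c₂').2.2.2.2.2.2.2.2.2.1 x y X hxy
  have h1 := (hTMB K t m c₁ c₁').2.2.2.2.2.2.2.2.2.1 y x (fun i => x i * X i * y i) hyx
  have h3 : (fun i => y i * (x i * X i * y i) * x i) = X := by
    funext i
    have : y i * (x i * X i * y i) * x i = (y i * x i) * X i * (y i * x i) := by
      simp only [Matrix.mul_assoc]
    rw [this, hyx i, Matrix.one_mul, Matrix.mul_one]
  rw [h3] at h1
  rw [Module.End.mul_apply, Module.End.mul_apply, Fop_apply, Fop_apply, Lop_apply, Lop_apply,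
    Matrix.mul_sub, Matrix.sub_mul]
  congr 1
  · rw [← Matrix.mul_assoc, h2]
    simp only [Matrix.mul_assoc]
  · have h4 : tmy c₂ c₂' x y * (u * dtm c₁ c₁' X) * tmy c₁ c₁' y x =
        tmy c₂ c₂' x y * u * (dtm c₁ c₁' X * tmy c₁ c₁' y x) := by
      simp only [Matrix.mul_assoc]
    rw [h4, ← h1]
    simp only [Matrix.mul_assoc]

theorem Fop_mul (hTMB : ST_TMB) (x y : MM m K) (hxy : ∀ i, x i * y i = 1) :
    Fop c₁ c₁' c₂ c₂' x y * Fop c₁ c₁' c₂ c₂' y x = 1 := by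
  apply LinearMap.ext
  intro u
  rw [Module.End.mul_apply, Fop_apply, Fop_apply, Module.End.one_apply]
  have h1 := (hTMB K t m c₁ c₁').1 x y x y
  have h2 := (hTMB K t m c₂ c₂').1 x y x y
  have h3 : (fun i => x i * y i) = (fun _ => 1 : MM m K) := funext fun i => hxy i
  have h4 := (hTMB K t m c₁ c₁').2.1
  have h5 := (hTMB K t m c₂ c₂').2.1
  -- tmy (x * y) (x * y) = tmy x x' * ...
  have h6 : tmy c₂ c₂' x y * tmy c₂ c₂' y x = 1 := by
    rw [← (hTMB K t m c₂ c₂').1 x y y x, h3]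
    exact h5
  have h7 : tmy c₁ c₁' x y * tmy c₁ c₁' y x = 1 := by
    rw [← (hTMB K t m c₁ c₁').1 x y y x, h3]
    exact h4
  have h8 : tmy c₂ c₂' x y * (tmy c₂ c₂' y x * u * tmy c₁ c₁' x y) * tmy c₁ c₁' y x =
      (tmy c₂ c₂' x y * tmy c₂ c₂' y x) * u * (tmy c₁ c₁' x y * tmy c₁ c₁' y x) := by
    simp only [Matrix.mul_assoc]
  rw [h8, h6, h7, Matrix.one_mul, Matrix.mul_one]

theorem Fop_conj (hTMB : ST_TMB) (x y X : MM m K) (hxy : ∀ i, x i * y i = 1)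
    (hyx : ∀ i, y i * x i = 1) :
    Fop c₁ c₁' c₂ c₂' x y * Lop c₁ c₁' c₂ c₂' X * Fop c₁ c₁' c₂ c₂' y x =
      Lop c₁ c₁' c₂ c₂' (fun i => x i * X i * y i) := by
  rw [Fop_Lop c₁ c₁' c₂ c₂' hTMB x y X hxy hyx, mul_assoc, Fop_mul c₁ c₁' c₂ c₂' hTMB x y hxy,
    mul_one]

end

end DNDx

end REC
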