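import Pool.Agent.Helper36.REC.DNDb

/-!
# DND, part c: the diagonal elements
-/

set_option autoImplicit false

open scoped Classical
open NumberField Polynomial

namespace REC

namespace DNDx

/-- the operators which preserve a subspace -/
def stab {K V : Type*} [Field K] [AddCommGroup V] [Module K V] (W : Submodule K V) :
    Submodule K (Module.End K V) where
  carrier := {S | ∀ u ∈ W, S u ∈ W}
  add_mem' := fun hS hS' u hu => W.add_mem (hS u hu) (hS' u hu)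
  zero_mem' := fun _ _ => W.zero_mem
  smul_mem' := fun r _ hS u hu => W.smul_mem r (hS u hu)

theorem mem_stab {K V : Type*} [Field K] [AddCommGroup V] [Module K V] (W : Submodule K V)
    (S : Module.End K V) : S ∈ stab W ↔ ∀ u ∈ W, S u ∈ W := Iff.rfl

theorem stab_mul {K V : Type*} [Field K] [AddCommGroup V] [Module K V] {W : Submodule K V}
    {S S' : Module.End K V} (hS : S ∈ stab W) (hS' : S' ∈ stab W) : S * S' ∈ stab W :=
  fun u hu => hS _ (hS' u hu)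

section

variable {K : Type} [Field K] {t : ℕ} {m : Fin t → ℕ} (c₁ c₁' c₂ c₂' : Fin t → ℕ)

/-- the eigenvalues of the generic element -/
noncomputable def lam (α : ∀ i, Fin (m i) → K) (a : Tix m c₂ c₂' × Tix m c₁ c₁') : K :=
  ∏ i, ∏ x, α i x ^ (wgt a.1 i x - wgt a.2 i x)

/-- the eigenvalues of a diagonal element of the Lie algebra -/
noncomputable def ell (h : ∀ i, Fin (m i) → K) (a : Tix m c₂ c₂' × Tix m c₁ c₁') : K :=
  ∑ i, ∑ x, h i x * ((wgt a.1 i x - wgt a.2 i x : ℤ) : K)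

theorem lam_eq (α β : ∀ i, Fin (m i) → K) (hαβ : ∀ i x, α i x * β i x = 1)
    (a : Tix m c₂ c₂' × Tix m c₁ c₁') :
    (∏ i, ∏ x, α i x ^ wgt a.1 i x) * (∏ i, ∏ x, β i x ^ wgt a.2 i x) =
      lam c₁ c₁' c₂ c₂' α a := by
  rw [lam, ← Finset.prod_mul_distrib]
  refine Finset.prod_congr rfl fun i _ => ?_
  rw [← Finset.prod_mul_distrib]
  refine Finset.prod_congr rfl fun x _ => ?_
  have hα : α i x ≠ 0 := left_ne_zero_of_mul_eq_one (hαβ i x)
  rw [eq_inv_of_mul_eq_one_right (hαβ i x), inv_zpow, zpow_sub₀ hα, div_eq_mul_inv]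

theorem ell_eq (h : ∀ i, Fin (m i) → K) (a : Tix m c₂ c₂' × Tix m c₁ c₁') :
    (∑ i, ∑ x, h i x * ((wgt a.1 i x : ℤ) : K)) - (∑ i, ∑ x, h i x * ((wgt a.2 i x : ℤ) : K)) =
      ell c₁ c₁' c₂ c₂' h a := by
  rw [ell, ← Finset.sum_sub_distrib]
  refine Finset.sum_congr rfl fun i _ => ?_
  rw [← Finset.sum_sub_distrib]
  refine Finset.sum_congr rfl fun x _ => ?_
  push_cast
  ring

theorem Fop_single (hTMB : ST_TMB) (α β : ∀ i, Fin (m i) → K) (hαβ : ∀ i x, α i x * β i x = 1)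
    (a : Tix m c₂ c₂' × Tix m c₁ c₁') (r : K) :
    Fop c₁ c₁' c₂ c₂' (fun i => Matrix.diagonal (α i)) (fun i => Matrix.diagonal (β i))
      (Matrix.single a.1 a.2 r) = lam c₁ c₁' c₂ c₂' α a • Matrix.single a.1 a.2 r := by
  have hβα : ∀ i x, β i x * α i x = 1 := fun i x => by rw [mul_comm]; exact hαβ i x
  rw [Fop_apply, tmy_diag hTMB c₂ c₂' α β hαβ, tmy_diag hTMB c₁ c₁' β α hβα]
  ext p p'
  rw [Matrix.mul_diagonal, Matrix.diagonal_mul, Matrix.smul_apply, smul_eq_mul]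
  by_cases h : p = a.1 ∧ p' = a.2
  · rw [h.1, h.2, ← lam_eq c₁ c₁' c₂ c₂' α β hαβ a]
    ring
  · rw [Matrix.single_apply_of_ne]
    · ring
    · rintro ⟨h1, h2⟩
      exact h ⟨h1.symm, h2.symm⟩

theorem Lop_diag (hTMB : ST_TMB) (h : ∀ i, Fin (m i) → K)
    (u : Matrix (Tix m c₂ c₂') (Tix m c₁ c₁') K) :
    Lop c₁ c₁' c₂ c₂' (fun i => Matrix.diagonal (h i)) u =
      ∑ a : Tix m c₂ c₂' × Tix m c₁ c₁', ell c₁ c₁' c₂ c₂' h a •
        Matrix.single a.1 a.2 (u a.1 a.2) := by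
  have h1 := (hTMB K t m c₁ c₁').2.2.2.2.2.2.2.2.2.2.1 h
  have h2 := (hTMB K t m c₂ c₂').2.2.2.2.2.2.2.2.2.2.1 h
  rw [Lop_apply, h1, h2]
  ext p p'
  rw [Matrix.sub_apply, Matrix.mul_diagonal, Matrix.diagonal_mul, Matrix.sum_apply,
    Finset.sum_eq_single (p, p')]
  · rw [Matrix.smul_apply, Matrix.single_apply_same, smul_eq_mul, ← ell_eq]
    ring
  · intro a _ ha
    rw [Matrix.smul_apply, Matrix.single_apply_of_ne, smul_zero]
    rintro ⟨h3, h4⟩
    exact ha (Prod.ext h3 h4)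
  · intro hn
    exact absurd (Finset.mem_univ _) hn

/-- Step 1: diagonal elements preserve the stable subspaces. -/
theorem diag_mem (hTMB : ST_TMB) (α β : ∀ i, Fin (m i) → K) (hαβ : ∀ i x, α i x * β i x = 1)
    (W : Submodule K (Matrix (Tix m c₂ c₂') (Tix m c₁ c₁') K))
    (hW : Fop c₁ c₁' c₂ c₂' (fun i => Matrix.diagonal (α i)) (fun i => Matrix.diagonal (β i)) ∈
      stab W) (h : ∀ i, Fin (m i) → K)
    (hcomp : ∀ a b : Tix m c₂ c₂' × Tix m c₁ c₁', lam c₁ c₁' c₂ c₂' α a =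
      lam c₁ c₁' c₂ c₂' α b → ell c₁ c₁' c₂ c₂' h a = ell c₁ c₁' c₂ c₂' h b) :
    Lop c₁ c₁' c₂ c₂' (fun i => Matrix.diagonal (h i)) ∈ stab W := by
  intro u hu
  have key := lag (Fop c₁ c₁' c₂ c₂' (fun i => Matrix.diagonal (α i))
    (fun i => Matrix.diagonal (β i))) W hW Finset.univ
    (fun a : Tix m c₂ c₂' × Tix m c₁ c₁' => Matrix.single a.1 a.2 (u a.1 a.2))
    (lam c₁ c₁' c₂ c₂' α) (fun a _ => Fop_single c₁ c₁' c₂ c₂' hTMB α β hαβ a _)
    (Function.extend (lam c₁ c₁' c₂ c₂' α) (ell c₁ c₁' c₂ c₂' h) 0) ?_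
  · rw [Lop_diag c₁ c₁' c₂ c₂' hTMB h u]
    have h1 : ∀ a, Function.extend (lam c₁ c₁' c₂ c₂' α) (ell c₁ c₁' c₂ c₂' h) 0
        (lam c₁ c₁' c₂ c₂' α a) = ell c₁ c₁' c₂ c₂' h a := fun a =>
      Function.FactorsThrough.extend_apply (fun {a b} hab => hcomp a b hab) 0 a
    simp only [h1] at key
    exact key
  · have h2 : ∑ a : Tix m c₂ c₂' × Tix m c₁ c₁', Matrix.single a.1 a.2 (u a.1 a.2) = u := by
      ext p p'
      rw [Matrix.sum_apply, Finset.sum_eq_single (p, p')]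
      · rw [Matrix.single_apply_same]
      · intro a _ ha
        rw [Matrix.single_apply_of_ne]
        rintro ⟨h3, h4⟩
        exact ha (Prod.ext h3 h4)
      · intro hn
        exact absurd (Finset.mem_univ _) hn
    rw [h2]
    exact hu

/-- The compatibility condition. -/
theorem comp_of_noRel (hTMB : ST_TMB) {z : Fin t → Prop} {q : Fin t → K} {D : ℕ}
    {α : ∀ i, Fin (m i) → K} (hN : NoRel z q D α) (hα : ∀ i x, α i x ≠ 0)
    (hD : ∀ i, 2 * (c₁ i + c₁' i + c₂ i + c₂' i) ≤ D) (h2 : (2 : K) ≠ 0)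
    (i : Fin t) (h : Fin (m i) → K)
    (hh : z i ∨ ∃ (s : Fin (m i) → Fin (m i)) (a : K), (∀ x, s (s x) = x) ∧
      (∀ x, α i x * α i (s x) = q i) ∧ ∀ x, h x + h (s x) = a)
    (a b : Tix m c₂ c₂' × Tix m c₁ c₁') (hab : lam c₁ c₁' c₂ c₂' α a =
      lam c₁ c₁' c₂ c₂' α b) :
    ell c₁ c₁' c₂ c₂' (Pi.single i h) a = ell c₁ c₁' c₂ c₂' (Pi.single i h) b := by
  have w1 : ∀ p : Tix m c₁ c₁', _ := (hTMB K t m c₁ c₁').2.2.2.2.2.2.2.2.2.2.2.2.1
  have w2 : ∀ p : Tix m c₂ c₂', _ := (hTMB K t m c₂ c₂').2.2.2.2.2.2.2.2.2.2.2.2.1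
  -- the relation
  have hrel : ∏ i, ∏ x, α i x ^ ((wgt a.1 i x - wgt a.2 i x) - (wgt b.1 i x - wgt b.2 i x)) = 1 := by
    have h3 : ∏ i, ∏ x, α i x ^ ((wgt a.1 i x - wgt a.2 i x) - (wgt b.1 i x - wgt b.2 i x)) =
        lam c₁ c₁' c₂ c₂' α a / lam c₁ c₁' c₂ c₂' α b := by
      rw [lam, lam, ← Finset.prod_div_distrib]
      refine Finset.prod_congr rfl fun i _ => ?_
      rw [← Finset.prod_div_distrib]
      exact Finset.prod_congr rfl fun x _ => zpow_sub₀ (hα i x) _ _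
    rw [h3, hab]
    refine div_self ?_
    rw [lam]
    exact Finset.prod_ne_zero_iff.2 fun i _ => Finset.prod_ne_zero_iff.2 fun x _ =>
      zpow_ne_zero _ (hα i x)
  have hsum : ∀ i, ∑ x, ((wgt a.1 i x - wgt a.2 i x) - (wgt b.1 i x - wgt b.2 i x)) = 0 := by
    intro i
    rw [Finset.sum_sub_distrib, Finset.sum_sub_distrib, Finset.sum_sub_distrib, (w2 a.1).1 i,
      (w1 a.2).1 i, (w2 b.1).1 i, (w1 b.2).1 i]
    ring
  have hbd : ∀ i x, |(wgt a.1 i x - wgt a.2 i x) - (wgt b.1 i x - wgt b.2 i x)| ≤ (D : ℤ) := by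
    intro i x
    have h3 := abs_le.1 ((w2 a.1).2 i x)
    have h4 := abs_le.1 ((w1 a.2).2 i x)
    have h5 := abs_le.1 ((w2 b.1).2 i x)
    have h6 := abs_le.1 ((w1 b.2).2 i x)
    have h7 : ((2 * (c₁ i + c₁' i + c₂ i + c₂' i) : ℕ) : ℤ) ≤ D := by exact_mod_cast hD i
    push_cast at h7
    rw [abs_le]
    constructor <;> linarith [h3.1, h3.2, h4.1, h4.2, h5.1, h5.2, h6.1, h6.2]
  have key := hN (fun i x => (wgt a.1 i x - wgt a.2 i x) - (wgt b.1 i x - wgt b.2 i x)) hbd hsum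
    hrel i
  -- reduce to the slot i
  have hell : ∀ a : Tix m c₂ c₂' × Tix m c₁ c₁', ell c₁ c₁' c₂ c₂' (Pi.single i h) a =
      ∑ x, h x * ((wgt a.1 i x - wgt a.2 i x : ℤ) : K) := by
    intro a
    rw [ell, Finset.sum_eq_single i]
    · rw [Pi.single_eq_same]
    · intro i' _ hi'
      rw [Pi.single_eq_of_ne hi']
      simp
    · intro hn
      exact absurd (Finset.mem_univ _) hn
  rw [hell, hell, ← sub_eq_zero, ← Finset.sum_sub_distrib]
  have h3 : ∀ x, h x * ((wgt a.1 i x - wgt a.2 i x : ℤ) : K) -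
      h x * ((wgt b.1 i x - wgt b.2 i x : ℤ) : K) =
      h x * (((wgt a.1 i x - wgt a.2 i x) - (wgt b.1 i x - wgt b.2 i x) : ℤ) : K) := by
    intro x
    push_cast
    ring
  rw [Finset.sum_congr rfl fun x _ => h3 x]
  by_cases hz : z i
  · refine Finset.sum_eq_zero fun x _ => ?_
    rw [(key x).1 hz, Int.cast_zero, mul_zero]
  · rcases hh with hh | ⟨s, A, hs, hsq, hh⟩
    · exact absurd hh hz
    · have hf : ∀ x, ((wgt a.1 i x - wgt a.2 i x) - (wgt b.1 i x - wgt b.2 i x)) =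
          ((wgt a.1 i (s x) - wgt a.2 i (s x)) - (wgt b.1 i (s x) - wgt b.2 i (s x))) :=
        fun x => (key x).2 hz (s x) (hsq x)
      have h4 : ∑ x, h x * (((wgt a.1 i x - wgt a.2 i x) - (wgt b.1 i x - wgt b.2 i x) : ℤ) : K) =
          ∑ x, h (s x) * (((wgt a.1 i x - wgt a.2 i x) -
            (wgt b.1 i x - wgt b.2 i x) : ℤ) : K) := by
        rw [← Equiv.sum_comp (Function.Involutive.toPerm s hs)]
        refine Finset.sum_congr rfl fun x _ => ?_
        rw [Function.Involutive.coe_toPerm, ← hf x]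
      have h5 : (2 : K) * ∑ x, h x * (((wgt a.1 i x - wgt a.2 i x) -
          (wgt b.1 i x - wgt b.2 i x) : ℤ) : K) = 0 := by
        rw [two_mul]
        nth_rw 2 [h4]
        rw [← Finset.sum_add_distrib]
        have h6 : ∀ x, h x * (((wgt a.1 i x - wgt a.2 i x) -
            (wgt b.1 i x - wgt b.2 i x) : ℤ) : K) + h (s x) * (((wgt a.1 i x - wgt a.2 i x) -
            (wgt b.1 i x - wgt b.2 i x) : ℤ) : K) = A * (((wgt a.1 i x - wgt a.2 i x) -
            (wgt b.1 i x - wgt b.2 i x) : ℤ) : K) := by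
          intro x
          rw [← hh x]
          ring
        rw [Finset.sum_congr rfl fun x _ => h6 x, ← Finset.mul_sum, ← Int.cast_sum, hsum i,
          Int.cast_zero, mul_zero]
      rcases mul_eq_zero.1 h5 with h6 | h6
      · exact absurd h6 h2
      · exact h6

end

end DNDx

end REC
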