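import Pool.Agent.Helper36.REC.DNDc

/-!
# DND, part d: the first half
-/

set_option autoImplicit false

open scoped Classical
open NumberField Polynomial

namespace REC

namespace DNDx

/-! ## The Lie algebra of a form -/

/-- the Lie algebra of the matrices which preserve `J` up to factors -/
def gl {K : Type} [Field K] {n : ℕ} (J : Matrix (Fin n) (Fin n) K) :
    Submodule K (Matrix (Fin n) (Fin n) K) where
  carrier := {X | ∃ a : K, X.transpose * J + J * X = a • J}
  add_mem' := by
    rintro X Y ⟨a, ha⟩ ⟨b, hb⟩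
    refine ⟨a + b, ?_⟩
    rw [Matrix.transpose_add, Matrix.add_mul, Matrix.mul_add, add_smul, ← ha, ← hb]
    abel
  zero_mem' := ⟨0, by simp⟩
  smul_mem' := by
    rintro r X ⟨a, ha⟩
    refine ⟨r * a, ?_⟩
    rw [Matrix.transpose_smul, Matrix.smul_mul, Matrix.mul_smul, mul_smul, ← ha, smul_add]

theorem gl_bracket {K : Type} [Field K] {n : ℕ} {J X Y : Matrix (Fin n) (Fin n) K}
    (hX : X ∈ gl J) (hY : Y ∈ gl J) : X * Y - Y * X ∈ gl J := by
  obtain ⟨a, ha⟩ := hX
  obtain ⟨b, hb⟩ := hY
  refine ⟨0, ?_⟩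
  have ha' : X.transpose * J = a • J - J * X := eq_sub_of_add_eq ha
  have hb' : Y.transpose * J = b • J - J * Y := eq_sub_of_add_eq hb
  have h1 : Y.transpose * X.transpose * J = a • (b • J - J * Y) - (b • J - J * Y) * X := by
    rw [Matrix.mul_assoc, ha', Matrix.mul_sub, Matrix.mul_smul, hb', ← Matrix.mul_assoc, hb']
  have h2 : X.transpose * Y.transpose * J = b • (a • J - J * X) - (a • J - J * X) * Y := by
    rw [Matrix.mul_assoc, hb', Matrix.mul_sub, Matrix.mul_smul, ha', ← Matrix.mul_assoc, ha']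
  rw [Matrix.transpose_sub, Matrix.transpose_mul, Matrix.transpose_mul, Matrix.sub_mul, h1, h2,
    Matrix.mul_sub, zero_smul, Matrix.sub_mul, Matrix.sub_mul, Matrix.smul_mul, Matrix.smul_mul,
    smul_sub, smul_sub, smul_smul, smul_smul, mul_comm a b]
  simp only [Matrix.mul_assoc]
  abel

theorem gl_conj {K : Type} [Field K] {n : ℕ} {J X : Matrix (Fin n) (Fin n) K} (hX : X ∈ gl J)
    (g g' : Matrix (Fin n) (Fin n) K) (hg : g * g' = 1) (q q' : K)
    (h : g.transpose * J * g = q • J) (h' : g'.transpose * J * g' = q' • J) (hqq : q * q' = 1) :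
    g * X * g' ∈ gl J := by
  obtain ⟨a, ha⟩ := hX
  refine ⟨a, ?_⟩
  have h1 : g.transpose * J = q • (J * g') := by
    have : g.transpose * J * g * g' = q • (J * g') := by rw [h, Matrix.smul_mul]
    rwa [Matrix.mul_assoc, hg, Matrix.mul_one] at this
  have h2 : J * g = q • (g'.transpose * J) := by
    have h3 : g'.transpose * (g.transpose * J * g) = q • (g'.transpose * J) := by
      rw [h, Matrix.mul_smul]
    rw [← Matrix.mul_assoc, ← Matrix.mul_assoc, ← Matrix.transpose_mul, hg,
      Matrix.transpose_one, Matrix.one_mul] at h3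
    exact h3
  have h3 : (g * X * g').transpose * J = q • (g'.transpose * (X.transpose * J) * g') := by
    rw [Matrix.transpose_mul, Matrix.transpose_mul, Matrix.mul_assoc, Matrix.mul_assoc, h1,
      Matrix.mul_smul, Matrix.mul_smul]
    simp only [Matrix.mul_assoc]
  have h4 : J * (g * X * g') = q • (g'.transpose * (J * X) * g') := by
    rw [← Matrix.mul_assoc, ← Matrix.mul_assoc, h2]
    simp only [Matrix.smul_mul, Matrix.mul_assoc]
  rw [h3, h4, ← smul_add, ← Matrix.add_mul, ← Matrix.mul_add, ha, Matrix.mul_smul,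
    Matrix.smul_mul, h', smul_smul, smul_smul]
  congr 1
  rw [mul_assoc, mul_left_comm, hqq, mul_one]

theorem gl_diag {K : Type} [Field K] {n : ℕ} {J : Matrix (Fin n) (Fin n) K}
    {s : Fin n → Fin n} (hL : LocJ J s) (h : Fin n → K) (a : K) (hh : ∀ x, h x + h (s x) = a) :
    Matrix.diagonal h ∈ gl J := by
  refine ⟨a, ?_⟩
  ext x y
  rw [Matrix.diagonal_transpose, Matrix.add_apply, Matrix.mul_diagonal, Matrix.diagonal_mul,
    Matrix.smul_apply, smul_eq_mul]
  by_cases hxy : J x y = 0
  · rw [hxy]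
    ring
  · rw [(hL.supp x y).1 hxy, ← hh x]
    ring

/-- entries of `Xᵀ J + J X` -/
theorem form_entry {K : Type} [Field K] {n : ℕ} {J : Matrix (Fin n) (Fin n) K}
    {s : Fin n → Fin n} (hL : LocJ J s) (X : Matrix (Fin n) (Fin n) K) (v w : Fin n) :
    (X.transpose * J + J * X) v w = X (s w) v * J (s w) w + J v (s v) * X (s v) w := by
  rw [Matrix.add_apply, Matrix.mul_apply, Matrix.mul_apply, Finset.sum_eq_single (s w),
    Finset.sum_eq_single (s v), Matrix.transpose_apply]
  · intro b _ hb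
    have : J v b = 0 := by
      by_contra hne
      exact hb ((hL.supp v b).1 hne)
    rw [this, zero_mul]
  · intro h
    exact absurd (Finset.mem_univ _) h
  · intro b _ hb
    have : J b w = 0 := by
      by_contra hne
      apply hb
      rw [(hL.supp b w).1 hne, hL.inv]
    rw [this, mul_zero]
  · intro h
    exact absurd (Finset.mem_univ _) h

theorem gl_comp {K : Type} [Field K] {n : ℕ} {J : Matrix (Fin n) (Fin n) K}
    {s : Fin n → Fin n} (hL : LocJ J s) {X : Matrix (Fin n) (Fin n) K} (hX : X ∈ gl J)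
    (x y : Fin n) (hxy : x ≠ y) :
    (Matrix.of fun a b => if (a = x ∧ b = y) ∨ (a = s y ∧ b = s x) then X a b else 0) ∈ gl J := by
  obtain ⟨a, ha⟩ := hX
  refine ⟨0, ?_⟩
  ext v w
  rw [form_entry hL, zero_smul, Matrix.zero_apply, Matrix.of_apply, Matrix.of_apply]
  have hX := congrFun (congrFun ha v) w
  rw [form_entry hL, Matrix.smul_apply, smul_eq_mul] at hX
  have hsxy : s y ≠ s x := by
    intro h
    apply hxy
    rw [← hL.inv x, ← h, hL.inv]
  by_cases hwv : w = s v
  · subst hwv
    rw [hL.inv]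
    rw [if_neg, if_neg, zero_mul, mul_zero, add_zero]
    · rintro (⟨h1, h2⟩ | ⟨h1, h2⟩)
      · exact hxy (h1.symm.trans h2)
      · exact hsxy (h1.symm.trans h2)
    · rintro (⟨h1, h2⟩ | ⟨h1, h2⟩)
      · exact hxy (h1.symm.trans h2)
      · exact hsxy (h1.symm.trans h2)
  · have hJ : J v w = 0 := by
      by_contra hne
      exact hwv ((hL.supp v w).1 hne)
    rw [hJ, mul_zero] at hX
    by_cases hc : (s w = x ∧ v = y) ∨ (s w = s y ∧ v = s x)
    · rw [if_pos hc, if_pos, hX]
      rcases hc with ⟨h1, h2⟩ | ⟨h1, h2⟩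
      · right
        exact ⟨by rw [h2], by rw [← h1, hL.inv]⟩
      · left
        exact ⟨by rw [h2, hL.inv], by rw [← hL.inv w, h1, hL.inv]⟩
    · rw [if_neg hc, if_neg, zero_mul, mul_zero, add_zero]
      intro hc'
      apply hc
      rcases hc' with ⟨h1, h2⟩ | ⟨h1, h2⟩
      · right
        exact ⟨by rw [h2], by rw [← h1, hL.inv]⟩
      · left
        exact ⟨by rw [h2, hL.inv], by rw [← hL.inv v, h1, hL.inv]⟩

/-! ## Components -/

section

variable {K : Type} [Field K] {t : ℕ} {m : Fin t → ℕ} (c₁ c₁' c₂ c₂' : Fin t → ℕ)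

theorem single_bracket (i : Fin t) (X Y : Matrix (Fin (m i)) (Fin (m i)) K) :
    (fun i' => (Pi.single i X : MM m K) i' * (Pi.single i Y : MM m K) i' -
      (Pi.single i Y : MM m K) i' * (Pi.single i X : MM m K) i') =
      (Pi.single i (X * Y - Y * X) : MM m K) := by
  funext i'
  by_cases h : i' = i
  · subst h
    rw [Pi.single_eq_same, Pi.single_eq_same, Pi.single_eq_same]
  · rw [Pi.single_eq_of_ne h, Pi.single_eq_of_ne h, Pi.single_eq_of_ne h]
    simp

theorem single_conj (i : Fin t) (x y : MM m K) (X : Matrix (Fin (m i)) (Fin (m i)) K) :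
    (fun i' => x i' * (Pi.single i X : MM m K) i' * y i') =
      (Pi.single i (x i * X * y i) : MM m K) := by
  funext i'
  by_cases h : i' = i
  · subst h
    rw [Pi.single_eq_same, Pi.single_eq_same]
  · rw [Pi.single_eq_of_ne h, Pi.single_eq_of_ne h]
    simp

/-- The components of an element of the Lie algebra of a stable subspace. -/
theorem comp_mem (hTMB : ST_TMB) (α β : ∀ i, Fin (m i) → K) (hαβ : ∀ i x, α i x * β i x = 1)
    (W : Submodule K (Matrix (Tix m c₂ c₂') (Tix m c₁ c₁') K))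
    (hW : Fop c₁ c₁' c₂ c₂' (fun i => Matrix.diagonal (α i)) (fun i => Matrix.diagonal (β i)) ∈
      stab W)
    (hW' : Fop c₁ c₁' c₂ c₂' (fun i => Matrix.diagonal (β i)) (fun i => Matrix.diagonal (α i)) ∈
      stab W) (i : Fin t) (X : Matrix (Fin (m i)) (Fin (m i)) K)
    (hX : Lop c₁ c₁' c₂ c₂' (Pi.single i X) ∈ stab W) (x y : Fin (m i)) :
    Lop c₁ c₁' c₂ c₂' (Pi.single i (Matrix.of fun a b =>
      if α i a * β i b = α i x * β i y then X a b else 0)) ∈ stab W := by
  have hxy : ∀ i, (Matrix.diagonal (α i) : Matrix _ _ K) * Matrix.diagonal (β i) = 1 := by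
    intro i
    rw [Matrix.diagonal_mul_diagonal, ← Matrix.diagonal_one]
    congr 1
    funext x
    exact hαβ i x
  have hyx : ∀ i, (Matrix.diagonal (β i) : Matrix _ _ K) * Matrix.diagonal (α i) = 1 := by
    intro i
    rw [Matrix.diagonal_mul_diagonal, ← Matrix.diagonal_one]
    congr 1
    funext x
    rw [mul_comm]
    exact hαβ i x
  have hsum : ∀ Y : Matrix (Fin (m i)) (Fin (m i)) K, Lop c₁ c₁' c₂ c₂' (Pi.single i Y) =
      ∑ p : Fin (m i) × Fin (m i), Lop c₁ c₁' c₂ c₂'
        (Pi.single i (Matrix.single p.1 p.2 (Y p.1 p.2))) := by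
    intro Y
    have h1 : Y = ∑ p : Fin (m i) × Fin (m i), Matrix.single p.1 p.2 (Y p.1 p.2) := by
      ext a b
      rw [Matrix.sum_apply, Finset.sum_eq_single (a, b)]
      · rw [Matrix.single_apply_same]
      · intro p _ hp
        rw [Matrix.single_apply_of_ne]
        rintro ⟨h3, h4⟩
        exact hp (Prod.ext h3 h4)
      · intro hn
        exact absurd (Finset.mem_univ _) hn
    have h2 : (Pi.single i Y : MM m K) = ∑ p : Fin (m i) × Fin (m i),
        (Pi.single i (Matrix.single p.1 p.2 (Y p.1 p.2)) : MM m K) := by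
      conv_lhs => rw [h1]
      exact map_sum (AddMonoidHom.single (fun i => Matrix (Fin (m i)) (Fin (m i)) K) i) _ _
    rw [← Lmap_apply c₁ c₁' c₂ c₂' hTMB, h2, map_sum]
    rfl
  have key := lag ((LinearMap.mulLeft K (Fop c₁ c₁' c₂ c₂' (fun i => Matrix.diagonal (α i))
    (fun i => Matrix.diagonal (β i)))) ∘ₗ (LinearMap.mulRight K (Fop c₁ c₁' c₂ c₂'
    (fun i => Matrix.diagonal (β i)) (fun i => Matrix.diagonal (α i))))) (stab W)
    (fun S hS => stab_mul hW (stab_mul hS hW')) Finset.univ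
    (fun p : Fin (m i) × Fin (m i) => Lop c₁ c₁' c₂ c₂'
        (Pi.single i (Matrix.single p.1 p.2 (X p.1 p.2))))
    (fun p => α i p.1 * β i p.2) ?_ (fun k => if k = α i x * β i y then 1 else 0) ?_
  · rw [hsum]
    have h3 : ∀ p : Fin (m i) × Fin (m i), (if α i p.1 * β i p.2 = α i x * β i y then (1 : K)
        else 0) • Lop c₁ c₁' c₂ c₂' (Pi.single i (Matrix.single p.1 p.2 (X p.1 p.2))) =
        Lop c₁ c₁' c₂ c₂' (Pi.single i (Matrix.single p.1 p.2 ((Matrix.of fun a b =>
          if α i a * β i b = α i x * β i y then X a b else 0) p.1 p.2))) := by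
      intro p
      rw [Matrix.of_apply]
      split_ifs with hc
      · rw [one_smul]
      · rw [zero_smul, Matrix.single_zero, Pi.single_zero]
        exact (map_zero (Lmap c₁ c₁' c₂ c₂' hTMB)).symm
    rw [← Finset.sum_congr rfl fun p _ => h3 p]
    exact key
  · intro p _
    rw [LinearMap.comp_apply, LinearMap.mulRight_apply, LinearMap.mulLeft_apply, ← mul_assoc,
      Fop_conj c₁ c₁' c₂ c₂' hTMB _ _ _ hxy hyx, single_conj]
    have h4 : Matrix.diagonal (α i) * Matrix.single p.1 p.2 (X p.1 p.2) * Matrix.diagonal (β i) =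
        (α i p.1 * β i p.2) • Matrix.single p.1 p.2 (X p.1 p.2) := by
      ext a b
      rw [Matrix.mul_diagonal, Matrix.diagonal_mul, Matrix.smul_apply, smul_eq_mul]
      by_cases hab : p.1 = a ∧ p.2 = b
      · rw [← hab.1, ← hab.2]
        ring
      · rw [Matrix.single_apply_of_ne _ _ _ _ _ hab]
        ring
    rw [h4, Pi.single_smul, Lop_smul c₁ c₁' c₂ c₂' hTMB]
  · rw [← hsum]
    exact hX

end

end DNDx

end REC
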