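import Pool.Agent.Helper36.REC.DNDd

/-!
# DND, part e: the first half
-/

set_option autoImplicit false

open scoped Classical
open NumberField Polynomial

namespace REC

namespace DNDx

section

variable {K : Type} [Field K] {t : ℕ} {m : Fin t → ℕ} (c₁ c₁' c₂ c₂' : Fin t → ℕ)

/-- the Lie algebra of the elements at the place `i` which preserve the subspace `W` -/
noncomputable def Hs (hTMB : ST_TMB) (J : MM m K)
    (W : Submodule K (Matrix (Tix m c₂ c₂') (Tix m c₁ c₁') K)) (i : Fin t) :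
    Submodule K (Matrix (Fin (m i)) (Fin (m i)) K) :=
  gl (J i) ⊓ (stab W).comap (Lmap c₁ c₁' c₂ c₂' hTMB ∘ₗ
    LinearMap.single K (fun i => Matrix (Fin (m i)) (Fin (m i)) K) i)

theorem mem_Hs (hTMB : ST_TMB) (J : MM m K)
    (W : Submodule K (Matrix (Tix m c₂ c₂') (Tix m c₁ c₁') K)) (i : Fin t)
    (X : Matrix (Fin (m i)) (Fin (m i)) K) : X ∈ Hs c₁ c₁' c₂ c₂' hTMB J W i ↔
      X ∈ gl (J i) ∧ Lop c₁ c₁' c₂ c₂' (Pi.single i X) ∈ stab W := Iff.rfl

theorem Hs_bracket (hTMB : ST_TMB) (J : MM m K)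
    (W : Submodule K (Matrix (Tix m c₂ c₂') (Tix m c₁ c₁') K)) (i : Fin t)
    {X Y : Matrix (Fin (m i)) (Fin (m i)) K} (hX : X ∈ Hs c₁ c₁' c₂ c₂' hTMB J W i)
    (hY : Y ∈ Hs c₁ c₁' c₂ c₂' hTMB J W i) : X * Y - Y * X ∈ Hs c₁ c₁' c₂ c₂' hTMB J W i := by
  rw [mem_Hs] at hX hY ⊢
  refine ⟨gl_bracket hX.1 hY.1, ?_⟩
  rw [← single_bracket, Lop_bracket c₁ c₁' c₂ c₂' hTMB]
  exact (stab W).sub_mem (stab_mul hX.2 hY.2) (stab_mul hY.2 hX.2)

theorem sim_inv {n : ℕ} {J g g' : Matrix (Fin n) (Fin n) K} {q q' : K} (hJ : J ≠ 0)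
    (hg : g * g' = 1) (h : g.transpose * J * g = q • J)
    (h' : g'.transpose * J * g' = q' • J) : q * q' = 1 := by
  have h1 : g'.transpose * (g.transpose * J * g) * g' = (q * q') • J := by
    rw [h, Matrix.mul_smul, Matrix.smul_mul, h', smul_smul]
  have h2 : g'.transpose * (g.transpose * J * g) * g' = (g * g').transpose * J * (g * g') := by
    rw [Matrix.transpose_mul]
    simp only [Matrix.mul_assoc]
  rw [h2, hg, Matrix.transpose_one, Matrix.one_mul, Matrix.mul_one] at h1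
  have h3 : (q * q' - 1) • J = 0 := by
    rw [sub_smul, ← h1, one_smul, sub_self]
  rcases smul_eq_zero.1 h3 with h4 | h4
  · exact sub_eq_zero.1 h4
  · exact absurd h4 hJ

theorem Hs_conj (hTMB : ST_TMB) {G : Type} [Group G] (J : MM m K)
    (R : ∀ i, G →* Matrix (Fin (m i)) (Fin (m i)) K) (q : Fin t → G → K) (hF : Frm0 J R q)
    (W : Submodule K (Matrix (Tix m c₂ c₂') (Tix m c₁ c₁') K))
    (hW : ∀ g, Fop c₁ c₁' c₂ c₂' (fun i => R i g) (fun i => R i g⁻¹) ∈ stab W) (i : Fin t)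
    (g : G) {X : Matrix (Fin (m i)) (Fin (m i)) K} (hX : X ∈ Hs c₁ c₁' c₂ c₂' hTMB J W i) :
    R i g * X * R i g⁻¹ ∈ Hs c₁ c₁' c₂ c₂' hTMB J W i := by
  have hg : ∀ i, R i g * R i g⁻¹ = 1 := fun i => by rw [← map_mul, mul_inv_cancel, map_one]
  have hg' : ∀ i, R i g⁻¹ * R i g = 1 := fun i => by rw [← map_mul, inv_mul_cancel, map_one]
  rw [mem_Hs] at hX ⊢
  constructor
  · by_cases hJ : J i = 0
    · exact ⟨0, by rw [hJ]; simp⟩
    · exact gl_conj hX.1 _ _ (hg i) _ _ (hF i g).1 (hF i g⁻¹).1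
        (sim_inv hJ (hg i) (hF i g).1 (hF i g⁻¹).1)
  · have h1 := Fop_conj c₁ c₁' c₂ c₂' hTMB (fun i => R i g) (fun i => R i g⁻¹) (Pi.single i X)
      hg hg'
    rw [single_conj] at h1
    rw [← h1]
    refine stab_mul (stab_mul (hW g) hX.2) ?_
    have h2 := hW g⁻¹
    rw [inv_inv] at h2
    exact h2

theorem alpha_ne {n : ℕ} {α : Fin n → K} {g' : Matrix (Fin n) (Fin n) K}
    (h : Matrix.diagonal α * g' = 1) (x : Fin n) : α x ≠ 0 := by
  intro h0
  have h1 := congrFun (congrFun h x) x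
  rw [Matrix.diagonal_mul, h0, zero_mul, Matrix.one_apply_eq] at h1
  exact zero_ne_one h1

/-- Steps 1, 2, 3: at every place the Lie algebra of the subspace is everything. -/
theorem Hs_top (hTMB : ST_TMB) (hKGL : ST_KGL) (hKJJ : ST_KJJ) {G : Type} [Group G] (J : MM m K)
    (R : ∀ i, G →* Matrix (Fin (m i)) (Fin (m i)) K) (q : Fin t → G → K) (g₀ : G)
    (α : ∀ i, Fin (m i) → K) (D : ℕ) (h2 : (2 : K) ≠ 0)
    (hk : ∀ i, ∀ k : ℕ, 0 < k → k ≤ m i → (k : K) ≠ 0)
    (hJ : ∀ i, 0 < m i ∧ (J i = 0 ∨ (IsUnit (J i).det ∧ ((J i).transpose = J i ∨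
      (J i).transpose = -J i)))) (hF : Frm0 J R q) (hP : ∀ i, Prm (R i))
    (hR : ∀ i, R i g₀ = Matrix.diagonal (α i))
    (hN : NoRel (fun i => J i = 0) (fun i => q i g₀) D α) (hD2 : 2 ≤ D)
    (hD : ∀ i, 2 * (c₁ i + c₁' i + c₂ i + c₂' i) ≤ D)
    (W : Submodule K (Matrix (Tix m c₂ c₂') (Tix m c₁ c₁') K))
    (hW : ∀ g, Fop c₁ c₁' c₂ c₂' (fun i => R i g) (fun i => R i g⁻¹) ∈ stab W) (i : Fin t) :
    (∀ X ∈ gl (J i), Lop c₁ c₁' c₂ c₂' (Pi.single i X) ∈ stab W) ∧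
      (J i ≠ 0 → ∃ s, LocJ (J i) s ∧ ((J i).transpose = J i → m i ≠ 2)) := by
  have hRβ : ∀ i, R i g₀⁻¹ = Matrix.diagonal (fun x => (α i x)⁻¹) := by
    intro i
    have h3 : R i g₀ * R i g₀⁻¹ = 1 := by rw [← map_mul, mul_inv_cancel, map_one]
    rw [hR i] at h3
    have h4 : Matrix.diagonal (α i) * Matrix.diagonal (fun x => (α i x)⁻¹) =
        (1 : Matrix (Fin (m i)) (Fin (m i)) K) := by
      rw [Matrix.diagonal_mul_diagonal, ← Matrix.diagonal_one]
      congr 1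
      funext x
      exact mul_inv_cancel₀ (alpha_ne h3 x)
    have h5 : Matrix.diagonal (fun x => (α i x)⁻¹) * Matrix.diagonal (α i) =
        (1 : Matrix (Fin (m i)) (Fin (m i)) K) := mul_eq_one_comm.1 h4
    calc R i g₀⁻¹ = (Matrix.diagonal (fun x => (α i x)⁻¹) * Matrix.diagonal (α i)) *
          R i g₀⁻¹ := by rw [h5, one_mul]
      _ = Matrix.diagonal (fun x => (α i x)⁻¹) := by rw [mul_assoc, h3, mul_one]
  have hα : ∀ i x, α i x ≠ 0 := by
    intro i x
    have h3 : R i g₀ * R i g₀⁻¹ = 1 := by rw [← map_mul, mul_inv_cancel, map_one]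
    rw [hR i] at h3
    exact alpha_ne h3 x
  have hαβ : ∀ i x, α i x * (α i x)⁻¹ = 1 := fun i x => mul_inv_cancel₀ (hα i x)
  have hW1 : Fop c₁ c₁' c₂ c₂' (fun i => Matrix.diagonal (α i))
      (fun i => Matrix.diagonal (fun x => (α i x)⁻¹)) ∈ stab W := by
    have h3 := hW g₀
    simp only [hR, hRβ] at h3
    exact h3
  have hW2 : Fop c₁ c₁' c₂ c₂' (fun i => Matrix.diagonal (fun x => (α i x)⁻¹))
      (fun i => Matrix.diagonal (α i)) ∈ stab W := by
    have h3 := hW g₀⁻¹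
    rw [inv_inv] at h3
    simp only [hR, hRβ] at h3
    exact h3
  have hdiag : ∀ h : Fin (m i) → K, (Pi.single i (Matrix.diagonal h) : MM m K) =
      fun i' => Matrix.diagonal ((Pi.single i h : ∀ i, Fin (m i) → K) i') := by
    intro h
    funext i'
    by_cases hi : i' = i
    · subst hi
      rw [Pi.single_eq_same, Pi.single_eq_same]
    · rw [Pi.single_eq_of_ne hi, Pi.single_eq_of_ne hi]
      simp
  have hratio : ∀ a b x y : Fin (m i), α i a * (α i b)⁻¹ = α i x * (α i y)⁻¹ ↔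
      α i a * α i y = α i b * α i x := by
    intro a b x y
    rw [← div_eq_mul_inv, ← div_eq_mul_inv, div_eq_div_iff (hα i b) (hα i y),
      mul_comm (α i x) (α i b)]
  by_cases hz : J i = 0
  · -- no form
    have hgl : ∀ X, X ∈ gl (J i) := fun X => ⟨0, by rw [hz]; simp⟩
    have htop := hKGL G K (m i) (R i) (hP i) (Hs c₁ c₁' c₂ c₂' hTMB J W i)
      (fun X hX Y hY => Hs_bracket c₁ c₁' c₂ c₂' hTMB J W i hX hY) ?_ ?_
      (fun g X hX => Hs_conj c₁ c₁' c₂ c₂' hTMB J R q hF W hW i g hX)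
    · refine ⟨fun X _ => ?_, fun hn => absurd hz hn⟩
      have : X ∈ Hs c₁ c₁' c₂ c₂' hTMB J W i := by
        rw [htop]
        exact Submodule.mem_top
      exact ((mem_Hs c₁ c₁' c₂ c₂' hTMB J W i X).1 this).2
    · intro x
      rw [mem_Hs]
      refine ⟨hgl _, ?_⟩
      rw [← Matrix.diagonal_single, hdiag]
      exact diag_mem c₁ c₁' c₂ c₂' hTMB α _ hαβ W hW1 _ fun a b hab =>
        comp_of_noRel c₁ c₁' c₂ c₂' hTMB hN hα hD h2 i _ (Or.inl hz) a b hab
    · intro X hX x y hxy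
      rw [mem_Hs] at hX ⊢
      refine ⟨hgl _, ?_⟩
      have h3 := comp_mem c₁ c₁' c₂ c₂' hTMB α _ hαβ W hW1 hW2 i X hX.2 x y
      have h4 : (Matrix.of fun a b => if α i a * (α i b)⁻¹ = α i x * (α i y)⁻¹ then X a b
          else 0) = Matrix.single x y (X x y) := by
        ext a b
        rw [Matrix.of_apply]
        by_cases hab : a = x ∧ b = y
        · rw [hab.1, hab.2, if_pos rfl, Matrix.single_apply_same]
        · rw [if_neg, Matrix.single_apply_of_ne]
          · rintro ⟨h5, h6⟩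
            exact hab ⟨h5.symm, h6.symm⟩
          · intro h5
            exact hab (ratio_zero hN hD2 i hz (hα i) a b x y hxy ((hratio a b x y).1 h5))
      rw [h4] at h3
      exact h3
  · -- a form
    obtain ⟨hm, hJ0 | ⟨hJdet, hJsym⟩⟩ := hJ i
    · exact absurd hJ0 hz
    obtain ⟨s, hL, hsq⟩ := loc h2 hN hD2 i (hα i) (J i) hJdet hJsym
      (by rw [← hR i]; exact (hF i g₀).1) (fun r hr => by
        rw [← hR i]
        exact (hF i g₀).2 hz r hr)
    have hinj := alpha_inj hN hD2 i (hα i) (fun _ x => ⟨s x, (hsq x (s x)).2 rfl⟩)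
    obtain ⟨h3, h4⟩ := hKJJ G K (m i) (R i) (hP i) hm h2 (hk i) (J i) s hL.inv hL.supp hJsym
      hL.fix (Hs c₁ c₁' c₂ c₂' hTMB J W i) (fun X hX => hX.1)
      (fun X hX Y hY => Hs_bracket c₁ c₁' c₂ c₂' hTMB J W i hX hY) (by
        intro h a hh
        rw [mem_Hs]
        refine ⟨gl_diag hL h a hh, ?_⟩
        rw [hdiag]
        exact diag_mem c₁ c₁' c₂ c₂' hTMB α _ hαβ W hW1 _ fun a' b' hab =>
          comp_of_noRel c₁ c₁' c₂ c₂' hTMB hN hα hD h2 i _
            (Or.inr ⟨s, a, hL.inv, fun x => (hsq x (s x)).2 rfl, hh⟩) a' b' hab) (by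
        intro X hX x y hxy
        rw [mem_Hs] at hX ⊢
        refine ⟨gl_comp hL hX.1 x y hxy, ?_⟩
        have h3 := comp_mem c₁ c₁' c₂ c₂' hTMB α _ hαβ W hW1 hW2 i X hX.2 x y
        have h4 : (Matrix.of fun a b => if α i a * (α i b)⁻¹ = α i x * (α i y)⁻¹ then X a b
            else 0) = Matrix.of fun a b => if (a = x ∧ b = y) ∨ (a = s y ∧ b = s x) then X a b
            else 0 := by
          ext a b
          rw [Matrix.of_apply, Matrix.of_apply]
          by_cases hab : (a = x ∧ b = y) ∨ (a = s y ∧ b = s x)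
          · rw [if_pos hab, if_pos]
            rw [hratio]
            rcases hab with ⟨h5, h6⟩ | ⟨h5, h6⟩
            · rw [h5, h6, mul_comm]
            · have h7 : α i y * α i (s y) = q i g₀ := (hsq y (s y)).2 rfl
              have h8 : α i x * α i (s x) = q i g₀ := (hsq x (s x)).2 rfl
              rw [h5, h6, mul_comm, h7, mul_comm, h8]
          · rw [if_neg hab, if_neg]
            intro h5
            exact hab (ratio_form hN hD2 i hz (hα i) hinj s hL.inv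
              (fun x => (hsq x (s x)).2 rfl) hL.fix a b x y hxy ((hratio a b x y).1 h5))
        rw [h4] at h3
        exact h3) (fun g X hX => Hs_conj c₁ c₁' c₂ c₂' hTMB J R q hF W hW i g hX)
    refine ⟨fun X hX => ?_, fun _ => ⟨s, hL, h4⟩⟩
    obtain ⟨a, ha⟩ := hX
    exact ((mem_Hs c₁ c₁' c₂ c₂' hTMB J W i X).1 (h3 X a ha)).2

end

end DNDx

end REC
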